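import Pool.Agent.H60.LQ.Defs

/-!
# LQ: statements

THEOREM (LQ). For `d ≥ 7`, `α > 1` the root of `α ^ 3 = 4 α - 2`, `κ = kp α = 0.2092..` and every
`q > 1 + α / (d + κ)`: `Loss d q 0 C`, i.e. the inequality of Q1 in `ℝ ^ (d + 1)` without loss.

The step (row STP) comes from the rows of sections 1 - 3 of `KTH` with explicit coefficients.
-/

set_option autoImplicit false

namespace Pool.LQ

open Finset Real
open Pool.Agent.H49.Ent Pool.Agent.H32.Dense Pool.Agent.H24.KTH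

/-- (SBP) `Sb` is the entropy of the pair (time, position); bounds of the entropy of the time.
`CH_add` / `CH_bayes`; `CH τ Z ≥ CH τ (v, Z) = J log 2 - K`; `CH_time_le`. -/
def SBPStmt : Prop :=
  ∀ (d J : ℕ) (Ω : Type) [Fintype Ω] (ζ : Type) (p : Ω → ℝ) (Z : Ω → ζ) (v : Ω → Fin d → ℤ)
    (u : Ω → Fin d → ℝ) (τ : Ω → ℤ), IsFam (2 ^ J) p Z v u τ →
    Sb (2 ^ J) p Z v u τ = CH p (fun ω => (τ ω, rd (pos (2 ^ J) (u ω) (v ω) (τ ω)))) Z ∧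
    J * Real.log 2 - Kf (2 ^ J) p (bv Z v) τ ≤ CH p τ Z ∧ CH p τ Z ≤ J * Real.log 2

/-- (LZR) Level zero. `level0G` (H32/Dense/Zero.lean): `CH v Z ≤ 2 Sf + 2 K + 2 d + d G`;
`Sf = Sb - CH τ Z ≤ Sb - J log 2 + K`. So `B₀ = 2 d`, `B₁ = d`. -/
def LZRStmt : Prop := ∀ d : ℕ, AKSG d 2 4

/-- (GAG) The gain is nonnegative: `Yf ≤ J log 2`, as `lvv ≤ J log 2`. -/
def GAGStmt : Prop := ∀ (d : ℕ) (a Λ k : ℝ), 0 ≤ k → GapG d a Λ k → AKSG d a Λ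

/-- (LOC) LOCALISATION in sb-form: port of H36/Dense/L3.lean (`local_step`) and of
H32/Dense/Loc.lean (`local_sum`, `akd_of_akg`), here with `M = 2 ^ J` (so `m = J`), the additional
term `ε log M` (a piece of depth `j` has `log M' = (J - j) log 2 ≤ J log 2`) and the point entropy.
THE ONLY NEW POINT: with `(j, Q)` = (stopping depth, dyadic interval),
`CH v Z ≤ CH v ((Z, Q), j) + I`, `I := CH (j, Q) Z - CH (j, Q) (v, Z) ≤ CH (j, Q) Z`, and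
`CH τ ((Z, Q), j) = CH τ Z - CH (j, Q) Z + CH (j, Q) (τ, Z)`, where
`CH (j, Q) (τ, Z) = CH j (τ, Z) ≤ e₁ w + C` (`Q` is a function of `τ, j`; weights
`(1 - exp (-e₁)) exp (-e₁ j)` as in `pair_cross`, StopL.lean). A piece contributes
`a (CH τ Z_j - (J - j) log 2 + Sf_j)`, so the sum is
`a (Sb - J log 2) - a CH (j,Q) Z + a (e₁ w + C) + a w log 2 + ..`, and
`CH (j, Q) Z - a CH (j, Q) Z ≤ 0` because `a ≥ 1`. Hence the coefficient of `w = Ex j` is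
`(a + d) log 2 + small` instead of `(d + 1) log 2 + small` for the S-form. -/
def LOCStmt : Prop :=
  ∀ (d : ℕ) (a Λ : ℝ), 1 ≤ a → 0 ≤ Λ → AKSG d a Λ → ∀ ε : ℝ, 0 < ε →
    AKS d a (max Λ ((1 + ε) * (a + d)))

/-- (STP) The step, with the gain of the angle. From SUM2, CFG2 (H60/LQ/Cfg.lean) and SBP: `G : Fm`
for the given family, `F` from CFG2; `AKS` for the families `F.FL`, `F.FI` (`Kf = KL, KI`,
`Sb = F.FL.sb, F.FI.sb`): `a (sb_L - lm) + Λ KL - L_L ≥ - B₀ - ε lm`. Divide SUM2 by `DD a > 0`;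
`PP a + (a - 1) - 2 DD a = - kh a`. -/
def STPStmt : Prop :=
  ∀ (d : ℕ) (a Λ : ℝ), 1 ≤ d → 1 ≤ a → a ≤ 2 → a + 4 ≤ Λ → AKS d a Λ →
    GapG d (nx a) (lp a Λ) (kp a)

/-- Truncated logarithm of the inverse distance: `log (2 ^ J / |x - y|)`, between `0` and
`J log 2`. -/
noncomputable def eg (J : ℕ) (x y : ℤ) : ℝ :=
  Real.log ((2 : ℝ) ^ J / min (max |(x : ℝ) - y| 1) (2 ^ J))

/-- (PSD) The logarithmic kernel is positive definite up to a constant. For `k ≤ J` let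
`K_k (x, y) := max 0 (1 - |x - y| / 2 ^ k) = 2 ^ (-k) #{s ∈ [0, 2 ^ k) : ⌊(x+s)/2^k⌋ = ⌊(y+s)/2^k⌋}`;
each `K_k` is positive definite: `∑ (μ x - ν x) (μ y - ν y) K_k (x, y) =
2 ^ (-k) ∑ s, ∑ intervals I, ((μ - ν)(I)) ^ 2 ≥ 0`. And `|eg J x y - log 2 · ∑ k ≤ J, K_k (x, y)| ≤ C`
(`K_k = 0` if `2 ^ k ≤ |x - y|`; the sum of `|x - y| / 2 ^ k` over the other `k` is at most `2`). -/
def PSDStmt : Prop :=
  ∃ C : ℝ, ∀ (J : ℕ) (S : Finset ℤ) (μ ν : ℤ → ℝ), (∀ x, 0 ≤ μ x) → (∀ x, 0 ≤ ν x) →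
    ∑ x ∈ S, μ x = 1 → ∑ x ∈ S, ν x = 1 →
    ∑ x ∈ S, ∑ y ∈ S, μ x * ν y * eg J x y ≤
      ((∑ x ∈ S, ∑ y ∈ S, μ x * μ y * eg J x y) + ∑ x ∈ S, ∑ y ∈ S, ν x * ν y * eg J x y) / 2 + C

/-- (CEN) Cross energies of two integers which are conditionally independent given `W`; from (PSD)
for the conditional laws, `dbl p W` being the law of two copies. -/
def CENStmt : Prop :=
  ∃ C : ℝ, ∀ (J : ℕ) (Ω : Type) [Fintype Ω] (β : Type) (p : Ω → ℝ) (W : Ω → β) (X Y : Ω → ℤ),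
    (∀ ω, 0 ≤ p ω) → ∑ ω, p ω = 1 →
    (∀ x y z, law p (fun ω => (X ω, Y ω, W ω)) (x, y, z) * law p W z =
      law p (fun ω => (X ω, W ω)) (x, z) * law p (fun ω => (Y ω, W ω)) (y, z)) →
    Ex p (fun ω => eg J (X ω) (Y ω)) ≤
      (Ex (dbl p W) (fun w => eg J (X w.1) (X w.2)) +
        Ex (dbl p W) (fun w => eg J (Y w.1) (Y w.2))) / 2 + C

/-- (ITR) The iteration; model: H53/Dense/Iter.lean (`akg_iter`, `step_sub`, `alpha_bounds`).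
Invariant: `AKS d a (1.01 (a + d))`, `α < a ≤ 2`, `a - α ≤ 2 ^ (-k)`. Start: (LZR), (LOC),
`4 ≤ 1.01 (2 + d)`. Step: (STP), (GAG) give `AKSG d (nx a) (lp a (1.01 (a + d)))` and
`lp a (1.01 (a + d)) ≤ nx a + d`: times `D = a ^ 2 + 3 a - 2` this is
`(3 a - 1) (0.01 a + 0.01 d) ≤ - 4 a ^ 2 - 2 a + 3 + d (a ^ 2 - 1)`
(`d = 7`: the right side is `3 a ^ 2 - 2 a - 4 ≥ 1`). Then (LOC) with `ε = 1/100`. -/
def ITRStmt : Prop :=
  ∀ (d : ℕ), 7 ≤ d → ∀ α : ℝ, 1 < α → α ^ 3 = 4 * α - 2 → ∀ x : ℝ, α < x →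
    ∃ a : ℝ, α < a ∧ a < x ∧ a ≤ 2 ∧ AKS d a (1.01 * (a + d)) ∧ lp a (1.01 * (a + d)) ≤ nx a + d

/-- (NRG) Energies of a restricted family: if the logarithmic potentials of the times are bounded
by `G₀` then after conditioning on a variable `w` with at most `N + 1` values (and on a function of
`v, w`) the mean energy is at most `(N + 1) G₀`.
`dbl p b⁺ (ω, ω') = p ω p ω' / law b⁺`; `∑ ω', [b⁺ ω' = b⁺ ω] p ω' ell ≤ ∑ ω', [b ω' = b ω] p ω' ell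
≤ G₀ law b (b ω)`; `∑ ω, p ω law b (b ω) / law b⁺ (b⁺ ω) = ∑ b, law b #(w) ≤ N + 1`. -/
def NRGStmt : Prop :=
  ∀ (d J N : ℕ) (Ω : Type) [Fintype Ω] (ζ : Type) (p : Ω → ℝ) (Z : Ω → ζ) (v : Ω → Fin d → ℤ)
    (u : Ω → Fin d → ℝ) (τ : Ω → ℤ) (w : Ω → ℕ) (G₀ : ℝ), IsFam (2 ^ J) p Z v u τ →
    (∀ ω, w ω ≤ N) →
    (∀ ω, 0 < p ω → ∑ ω', (open Classical in if bv Z v ω' = bv Z v ω then
      p ω' * ell (2 ^ J) (τ ω) (τ ω') else 0) ≤ G₀ * law p (bv Z v) (bv Z v ω)) →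
    Gf (2 ^ J) p (bv (fun ω => (cap J (lev J N (w ω)) (v ω), w ω, Z ω)) v) τ ≤ (N + 1) * G₀

/-- (RDS) Restriction of a family to its heavy caps, sb-form. As (RED) of KTH, from (HC) with
`B := av (2 ^ J) Z v u τ`; the point entropy: `Sb⁺ = CH (τ,X) (Z,w,cap) = CH (τ,X) (Z,w) -
CH cap (w,Z) + CH cap (B,w)` and `CH (τ,X) (Z,w) ≤ Sb`, `CH cap (B,w) ≤ ε J`: no deficit. -/
def RDSStmt : Prop :=
  ∀ (d N : ℕ), 0 < N → ∀ ε : ℝ, 0 < ε → ∃ C : ℝ, ∃ J₀ : ℕ, ∀ J ≥ J₀, ∀ (Ω : Type) [Fintype Ω]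
    (ζ : Type) (p : Ω → ℝ) (Z : Ω → ζ) (v : Ω → Fin d → ℤ) (u : Ω → Fin d → ℝ) (τ : Ω → ℤ),
    IsFam (2 ^ J) p Z v u τ →
    ∃ w : Ω → ℕ, (∀ ω, w ω ≤ N) ∧
      IsFam (2 ^ J) p (fun ω => (cap J (lev J N (w ω)) (v ω), w ω, Z ω)) v u τ ∧
      Kf (2 ^ J) p (bv (fun ω => (cap J (lev J N (w ω)) (v ω), w ω, Z ω)) v) τ ≤
        Kf (2 ^ J) p (bv Z v) τ + C ∧
      Yf (2 ^ J) p (fun ω => (cap J (lev J N (w ω)) (v ω), w ω, Z ω)) v u τ ≤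
        Ex p (fun ω => (w ω : ℝ)) / N * (J * Real.log 2) + (1 / N + ε) * J ∧
      Sb (2 ^ J) p (fun ω => (cap J (lev J N (w ω)) (v ω), w ω, Z ω)) v u τ +
        CH p (fun ω => cap J (lev J N (w ω)) (v ω)) (fun ω => (w ω, Z ω)) ≤
        Sb (2 ^ J) p Z v u τ + ε * J

/-- (HCB) From the gain to the counting form. Family: H36/Dense/X6.lean (`Sp A`, `wt A`,
`sum_wt`, `law_line`, `Kf_bound`, the entropy `CH v () = log N`), `J ≥ J₀`; for `J < J₀` the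
inequality is trivial after decreasing `c` (`N ≤ (2 · 2 ^ J + 1) ^ d`, `κ ≤ 1`, the right side is at
least `κ 2 ^ J` if `N > 0`, and `Λ' / a' ≥ 1`). `Sb ≤ log ∑ j, cl j` (`CH_le_card` for the pair
(time, position), whose values lie in a set of that size; here `Z = ()`). Potentials: (NRG) for
`law p b (b ω) = 1 / N`. Let `h := CH cap (w, Z)`, `L⁺ := CH v Z⁺`. (RDS), (NRG), `GapG`, (CAP):
`L ≤ h + L⁺ + C`, `L⁺ ≤ d (1 - Ex w / N) J log 2 + C`,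
`L⁺ ≤ a (Sb - h - J log 2) - k ((1 - Ex w / N) J log 2 - (1 / N + ε) J) + Λ (K + C) + B₀ +
B₁ (N + 1) G₀ + 2 ε J`; so `(1 + k / d) L ≤ a (Sb - J log 2) + Λ K + C' + ε' J` since
`1 + k / d ≤ a`. Exponentiate: `a' = a d / (d + k)`, `Λ' = Λ d / (d + k)`. -/
def HCBStmt : Prop :=
  ∀ (d : ℕ) (a Λ k : ℝ), 1 ≤ d → 0 ≤ k → 1 + k / d ≤ a → a ≤ Λ → GapG d a Λ k →
    DenseSb d (a * d / (d + k)) (Λ * d / (d + k))

/-- (DCS) Two-ends reduction: port of H70/Dense/X7a.lean (`denseCount_of_strong`, `one_interval`,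
`strong_of_dense`, `energy`) without `prune`: for a set `S` of lines with times in one dyadic
interval of length `2 ^ l` (after rescaling) apply `DenseSb` at the resolution `2 ^ l` directly.
One interval: density `κ w ^ e₀ / w` with `w = 2 ^ l / 2 ^ m`, number of directions at least
`|S| w ^ d`: `2 ^ l (κ w ^ e₀ / w) ^ (Λ / a) (|S| w ^ d) ^ (1 / a)
= 2 ^ m (κ w ^ e₀) ^ (Λ / a) |S| ^ (1 / a) w ^ (1 + d / a - Λ / a)`: replace first `Λ` by `a + d`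
(allowed because the density is at most 1). -/
def DCSStmt : Prop :=
  ∀ (d : ℕ) (a Λ : ℝ), 1 ≤ a → Λ ≤ a + d → DenseSb d a Λ → DenseCount d a

/-- (FIN) The theorem. By (ITR), (STP), (HCB), (DCS), `restricted_of_count`,
`lossless_of_restricted` (H53/Dense): `a'' = nx a · d / (d + kp a)`, `1 + a'' / d =
1 + nx a / (d + kp a) → 1 + α / (d + kp α)` as `a → α` (continuity; `nx α = α`). -/
def FINStmt : Prop :=
  ∀ (d : ℕ), 7 ≤ d → ∀ α : ℝ, 1 < α → α ^ 3 = 4 * α - 2 → ∀ q : ℝ,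
    1 + α / (d + kp α) < q → ∃ C : ℝ, Pool.Agent.H53.Kak.Loss d q 0 C

end Pool.LQ
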