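import Pool.Agent.H60.LQ.Cfg

/-!
# LQ, row STP: the step
-/

set_option autoImplicit false

namespace Pool.LQ

open Finset Real
open Pool.Agent.H49.Ent Pool.Agent.H32.Dense Pool.KTH
open Pool.Agent.H24.KTH (dsv lvv lev cap Yf kp)

namespace STP

lemma log_two_pow (J : ℕ) : Real.log ((2 ^ J : ℕ) : ℝ) = J * Real.log 2 := by
  push_cast
  rw [Real.log_pow]

/-- `AKS` for a bundled family. -/
lemma aks_fm {d : ℕ} {a Λ B₀ ε : ℝ} (hS : SBPStmt) (h : Ag d a Λ B₀ 0 ε) {J : ℕ} (G : Fm d J) :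
    G.L ≤ a * (G.sb - lm J) + Λ * (lm J - CH G.p G.τ (fun w => (G.v w, G.Z w))) + |B₀| +
      ε * lm J := by
  have h1 := h J G.Ω G.ζ G.p G.Z G.v G.u G.τ G.isFam
  have h2 := (hS d J G.Ω G.ζ G.p G.Z G.v G.u G.τ G.isFam).1
  have h3 : Sb (2 ^ J) G.p G.Z G.v G.u G.τ = G.sb := h2
  rw [h3] at h1
  have h4 : Kf (2 ^ J) G.p (bv G.Z G.v) G.τ =
      lm J - CH G.p G.τ (fun w => (G.v w, G.Z w)) := by
    unfold Kf lm
    rw [log_two_pow]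
    rfl
  rw [h4] at h1
  have h5 := le_abs_self B₀
  have h6 : G.L = CH G.p G.v G.Z := rfl
  rw [h6]
  unfold lm at h1 ⊢
  linarith

lemma final {a Λ L sb l y K g C C0 B ε cL cI : ℝ} (ha1 : 1 ≤ a) (ha2 : a ≤ 2) (hε : 0 < ε)
    (hl : 0 ≤ l) (hB : 0 ≤ B)
    (h : (a ^ 2 + 3 * a - 2) * (L + 2 * l) - ((3 * a ^ 2 + 2 * a - 2) * sb + (a - 1) * l +
      (3 * a - a ^ 2 - 1) * y - a * cL - (a - 1) * cI) ≤
      (7 * a ^ 2 + 4 * a - 5 + (3 * a - 1) * (Λ - a)) * K + C * (C0 * (g + 1) + 1) + ε / 2 * l)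
    (hL : -(B + ε / 2 * l) ≤ cL) (hI : -(B + ε / 2 * l) ≤ cI) :
    L ≤ (3 * a ^ 2 + 2 * a - 2) / (a ^ 2 + 3 * a - 2) * (sb - l) -
      (3 * a - a ^ 2 - 1) / (a ^ 2 + 3 * a - 2) * (l - y) +
      (7 * a ^ 2 + 4 * a - 5 + (3 * a - 1) * (Λ - a)) / (a ^ 2 + 3 * a - 2) * K +
      (3 * B + |C * (C0 + 1)|) / (a ^ 2 + 3 * a - 2) +
      C * C0 / (a ^ 2 + 3 * a - 2) * g + ε * l := by
  have hD : 2 ≤ a ^ 2 + 3 * a - 2 := by nlinarith
  have hD0 : 0 < a ^ 2 + 3 * a - 2 := by linarith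
  set D := a ^ 2 + 3 * a - 2 with hDd
  have e1 : D * ((3 * a ^ 2 + 2 * a - 2) / D * (sb - l) -
      (3 * a - a ^ 2 - 1) / D * (l - y) +
      (7 * a ^ 2 + 4 * a - 5 + (3 * a - 1) * (Λ - a)) / D * K +
      (3 * B + |C * (C0 + 1)|) / D + C * C0 / D * g + ε * l) =
      (3 * a ^ 2 + 2 * a - 2) * (sb - l) - (3 * a - a ^ 2 - 1) * (l - y) +
      (7 * a ^ 2 + 4 * a - 5 + (3 * a - 1) * (Λ - a)) * K +
      (3 * B + |C * (C0 + 1)|) + C * C0 * g + D * (ε * l) := by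
    field_simp
  refine le_of_mul_le_mul_left ?_ hD0
  rw [e1]
  have k1 := mul_le_mul_of_nonneg_left hL (by linarith : (0 : ℝ) ≤ a)
  have k2 := mul_le_mul_of_nonneg_left hI (by linarith : (0 : ℝ) ≤ a - 1)
  have hel : 0 ≤ ε * l := by positivity
  have k3 : 2 * (ε * l) ≤ D * (ε * l) := mul_le_mul_of_nonneg_right hD hel
  have k4 : (2 * a - 1) * (B + ε / 2 * l) ≤ 3 * (B + ε / 2 * l) :=
    mul_le_mul_of_nonneg_right (by linarith) (by linarith)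
  have k5 := le_abs_self (C * (C0 + 1))
  have k6 : D * (L + 2 * l) = D * L + 2 * (a ^ 2 + 3 * a - 2) * l := by rw [hDd]; ring
  rw [k6] at h
  linarith

end STP

open STP

theorem stp (hSUM : SUM2Stmt) (hCFG : CFG2Stmt) (hSBP : SBPStmt) : STPStmt := by
  intro d a Λ hd ha1 ha2 hΛ hA ε hε
  obtain ⟨C, hC, hs⟩ := hSUM d a Λ hd ha1 ha2 hΛ (ε / 2) (by positivity)
  obtain ⟨C0, hC0, hc⟩ := hCFG
  obtain ⟨B, hB⟩ := hA (ε / 2) (by positivity)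
  have hD0 : 0 < a ^ 2 + 3 * a - 2 := by nlinarith
  refine ⟨(3 * |B| + |C * (C0 + 1)|) / (a ^ 2 + 3 * a - 2), C * C0 / (a ^ 2 + 3 * a - 2),
    by positivity, ?_⟩
  intro J Ω _ ζ p Z v u τ h
  let G : Fm d J := ⟨Ω, ζ, inferInstance, p, Z, v, u, τ, h⟩
  obtain ⟨F, hF, hy⟩ := hc d J G
  have h1 := hs J F G.L G.sb _ _ hF
  have hL := aks_fm hSBP hB F.FL
  have hI := aks_fm hSBP hB F.FI
  have hl0 : 0 ≤ lm J := by unfold lm; positivity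
  beta_reduce at h1
  rw [hy] at h1
  unfold DD PP kh at h1
  have key := final (a := a) (Λ := Λ) (L := G.L) (sb := G.sb) (l := lm J) (y := G.Y)
    (K := Kf (2 ^ J) G.p (bv G.Z G.v) G.τ) (g := Gf (2 ^ J) G.p (bv G.Z G.v) G.τ) (C := C)
    (C0 := C0) (B := |B|) (ε := ε)
    (cL := a * (F.FL.sb - lm J) + Λ * KL F - F.FL.L)
    (cI := a * (F.FI.sb - lm J) + Λ * KI F - F.FI.L) ha1 ha2 hε hl0 (abs_nonneg _) h1
    (by
      have : KL F = lm J - CH F.FL.p F.FL.τ (fun w => (F.FL.v w, F.FL.Z w)) := rfl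
      rw [this]
      linarith)
    (by
      have : KI F = lm J - CH F.FI.p F.FI.τ (fun w => (F.FI.v w, F.FI.Z w)) := rfl
      rw [this]
      linarith)
  have e1 : G.sb = Sb (2 ^ J) p Z v u τ := (hSBP d J Ω ζ p Z v u τ h).1.symm
  rw [e1] at key
  exact key

end Pool.LQ
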