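import Pool.Agent.H60.LQ.Cfg

/-!
# LQ, row SUM2: the sum of the inequalities
-/

set_option autoImplicit false

namespace Pool.LQ

open Finset Real
open Pool.Agent.H49.Ent Pool.Agent.H32.Dense Pool.KTH
open Pool.Agent.H24.KTH (dsv lvv lev cap Yf kp)

namespace SUM2

lemma arith {a Λ L lm sb y gO xh e1 LL SL mh KL q y12 gY yh et LI SI xi η KI rh K E : ℝ}
    (ha1 : 1 ≤ a) (ha2 : a ≤ 2) (hΛ : a + 4 ≤ Λ) (hE : 0 ≤ E) (hK : 0 ≤ K)
    (h1 : 2 * L + 4 * lm - sb - 2 * y - gO - xh - e1 - LL ≤ 2 * K + E)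
    (h2 : SL - lm - (mh - xh - e1 - y - gO - KL) ≤ 4 * K + E)
    (h3 : 3 * L + 6 * lm - 2 * sb - q - y - y12 - gY - yh - et - LI ≤ 5 * K + E)
    (h4 : SI - lm - (sb + xh - yh - xi) ≤ E)
    (h5 : q + KI + gY - η - xi ≤ 2 * K + E)
    (h6 : et + y12 + KI + gY - 2 * η - xi ≤ 2 * K + E)
    (h7 : mh + L + 2 * lm - 2 * sb - rh - yh - η ≤ K + E)
    (h8 : KL + η ≤ 2 * K + E) (h9 : KI - η ≤ K + E)
    (h10 : -gO ≤ E) (h11 : -gY ≤ E) (h12 : et + y12 - lm ≤ E) (h14 : -η ≤ E)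
    (h15 : mh ≤ 2 * sb) (h16 : rh ≤ lm) (h17 : 0 ≤ e1) :
    (a ^ 2 + 3 * a - 2) * (L + 2 * lm) - ((3 * a ^ 2 + 2 * a - 2) * sb + (a - 1) * lm +
        (3 * a - a ^ 2 - 1) * y - a * (a * (SL - lm) + Λ * KL - LL) -
        (a - 1) * (a * (SI - lm) + Λ * KI - LI)) ≤
      (7 * a ^ 2 + 4 * a - 5 + (3 * a - 1) * (Λ - a)) * K + (16 + 4 * (Λ - a)) * E := by
  obtain ⟨b, rfl⟩ : ∃ b : ℝ, a = 1 + b := ⟨a - 1, by ring⟩
  obtain ⟨lam, rfl⟩ : ∃ lam : ℝ, Λ = lam + (1 + b) := ⟨Λ - (1 + b), by ring⟩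
  have hb : 0 ≤ b := by linarith
  have hb1 : b ≤ 1 := by linarith
  have hl : 4 ≤ lam := by linarith
  have hl0 : 0 ≤ lam := by linarith
  have m1 := mul_le_mul_of_nonneg_left h1 (by linarith : (0 : ℝ) ≤ 1 + b)
  have m2 := mul_le_mul_of_nonneg_left h2 (by positivity : (0 : ℝ) ≤ (1 + b) ^ 2)
  have m3 := mul_le_mul_of_nonneg_left h3 hb
  have m4 := mul_le_mul_of_nonneg_left h4 (by positivity : (0 : ℝ) ≤ (1 + b) * b)
  have m5 := mul_le_mul_of_nonneg_left h5 hb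
  have m6 := mul_le_mul_of_nonneg_left h6 (by positivity : (0 : ℝ) ≤ b ^ 2)
  have m7 := mul_le_mul_of_nonneg_left h7 (by positivity : (0 : ℝ) ≤ b ^ 2)
  have m8 := mul_le_mul_of_nonneg_left h8 (by positivity : (0 : ℝ) ≤ (1 + b) * lam)
  have m9 := mul_le_mul_of_nonneg_left h9 (by positivity : (0 : ℝ) ≤ b * lam)
  have m10 := mul_le_mul_of_nonneg_left h10 (by positivity : (0 : ℝ) ≤ (1 + b) * b)
  have m11 := mul_le_mul_of_nonneg_left h11 (by positivity : (0 : ℝ) ≤ b ^ 2)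
  have m12 := mul_le_mul_of_nonneg_left h12 (mul_nonneg hb (by linarith : (0 : ℝ) ≤ 1 - b))
  have hc : 0 ≤ lam - b - 3 * b ^ 2 := by nlinarith
  have m14 := mul_le_mul_of_nonneg_left h14 hc
  have m15 := mul_le_mul_of_nonneg_left h15 (by linarith : (0 : ℝ) ≤ 1 + 2 * b)
  have m16 := mul_le_mul_of_nonneg_left h16 (by positivity : (0 : ℝ) ≤ b ^ 2)
  have m17 := mul_nonneg (by positivity : (0 : ℝ) ≤ (1 + b) * b) h17
  have m18 := mul_nonneg hb hK
  have hW : 0 ≤ (16 + 4 * lam) - (2 + 7 * b + 2 * b ^ 2 + (2 + 2 * b) * lam) := by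
    have : 0 ≤ (1 - b) * lam := mul_nonneg (by linarith) hl0
    nlinarith
  have m19 := mul_nonneg hW hE
  linarith

lemma log_le (ε : ℝ) (hε : 0 < ε) : ∃ C : ℝ, 0 ≤ C ∧ ∀ J : ℕ,
    Real.log ((J : ℝ) + 2) ≤ C + ε * lm J := by
  refine ⟨|ε - 1 - Real.log (ε / 2)|, abs_nonneg _, fun J => ?_⟩
  have h1 : Real.log (ε / 2 * ((J : ℝ) + 2)) ≤ ε / 2 * ((J : ℝ) + 2) - 1 :=
    Real.log_le_sub_one_of_pos (by positivity)
  rw [Real.log_mul (by positivity) (by positivity)] at h1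
  have h2 : (1 : ℝ) / 2 ≤ Real.log 2 := by
    have := Real.log_two_gt_d9
    linarith
  have h3 : ε * ((J : ℝ) * (1 / 2)) ≤ ε * ((J : ℝ) * Real.log 2) := by gcongr
  have h4 := le_abs_self (ε - 1 - Real.log (ε / 2))
  unfold lm
  linarith

lemma esk_of_ek {d : ℕ} {k : ℝ} {f : ∀ J : ℕ, Cf d J → ℝ → ℝ → ℝ} (h : Ek d k f) :
    Esk d k f := by
  obtain ⟨C, hC, h⟩ := h
  intro ε hε
  obtain ⟨C', hC', hl⟩ := log_le (ε / (C + 1)) (by positivity)
  refine ⟨C + C * C', by positivity, ?_⟩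
  intro J F L sb K G hF
  refine (h J F L sb K G hF).trans ?_
  have h1 := mul_le_mul_of_nonneg_left (hl J) hC
  have h2 : C * (ε / (C + 1) * lm J) ≤ ε * lm J := by
    have hl0 : 0 ≤ lm J := by unfold lm; positivity
    have : C * (ε / (C + 1) * lm J) = (C / (C + 1)) * (ε * lm J) := by
      field_simp
    rw [this]
    have h3 : C / (C + 1) ≤ 1 := by
      rw [div_le_one (by positivity)]
      linarith
    have h4 : 0 ≤ ε * lm J := by positivity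
    nlinarith
  have h5 := hF.G0
  have h6 : 0 ≤ C * C' * G := by positivity
  nlinarith

lemma esk_of_eg {d : ℕ} {f : ∀ J : ℕ, Cf d J → ℝ} (h : Eg d f) :
    Esk d 0 (fun J F _ _ => f J F) := by
  refine esk_of_ek ?_
  obtain ⟨C, hC, h⟩ := h
  refine ⟨C, hC, ?_⟩
  intro J F L sb K G hF
  refine (h J F).trans ?_
  have := mul_le_mul_of_nonneg_left hF.ge hC
  linarith

lemma le_err {C C' G ε l x : ℝ} (h : x ≤ C * (G + 1) + ε * l) (hC : C ≤ C') (hG : 0 ≤ G) :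
    x ≤ C' * (G + 1) + ε * l := by
  have : C * (G + 1) ≤ C' * (G + 1) := mul_le_mul_of_nonneg_right hC (by linarith)
  linarith

end SUM2

open SUM2

theorem sum2 (hALL : ALL2Stmt) (hALS : ALS2Stmt) (hAIL : AIL2Stmt) (hAIS : AIS2Stmt)
    (hAXI : AXI2Stmt) (hAYY : AYY2Stmt) (hDRV : DRV2Stmt) (hPAR : PAR2Stmt) (hETA : ETA2Stmt)
    (hUFC : UFC2Stmt) : SUM2Stmt := by
  intro d a Λ hd ha1 ha2 hΛ ε hε
  set W : ℝ := 16 + 4 * (Λ - a) with hW
  have hW0 : 0 < W := by rw [hW]; linarith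
  have hε' : 0 < ε / W := by positivity
  obtain ⟨C1, p1, r1⟩ := esk_of_ek (hALL d hd) _ hε'
  obtain ⟨C2, p2, r2⟩ := hALS d hd _ hε'
  obtain ⟨C3, p3, r3⟩ := hAIL d hd _ hε'
  obtain ⟨C4, p4, r4⟩ := esk_of_ek (hAIS d) _ hε'
  obtain ⟨C5, p5, r5⟩ := esk_of_ek (hAXI d hd).1 _ hε'
  obtain ⟨C6, p6, r6⟩ := (hAXI d hd).2 _ hε'
  obtain ⟨C7, p7, r7⟩ := esk_of_ek (hAYY d) _ hε'
  obtain ⟨C8, p8, r8⟩ := esk_of_ek (hDRV d).1 _ hε'
  obtain ⟨C9, p9, r9⟩ := esk_of_ek (hDRV d).2 _ hε'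
  obtain ⟨C10, p10, r10⟩ := esk_of_eg (hPAR d hd).1 _ hε'
  obtain ⟨C11, p11, r11⟩ := esk_of_eg (hPAR d hd).2 _ hε'
  obtain ⟨C12, p12, r12⟩ := esk_of_eg (hETA d hd) _ hε'
  obtain ⟨C14, p14, r14⟩ := esk_of_ek (hUFC d).2.2.2.2 _ hε'
  set C : ℝ := C1 + C2 + C3 + C4 + C5 + C6 + C7 + C8 + C9 + C10 + C11 + C12 + C14 with hC
  have hC0 : 0 ≤ C := by rw [hC]; positivity
  refine ⟨W * C, by positivity, ?_⟩
  intro J F L sb K G hF
  have hG := hF.G0
  have hlm : 0 ≤ lm J := by unfold lm; positivity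
  have hq := F.hq
  have hl : Real.log ((2 ^ J : ℕ) : ℝ) = lm J := by
    unfold lm
    push_cast
    rw [Real.log_pow]
  set E : ℝ := C * (G + 1) + ε / W * lm J with hE
  have hE0 : 0 ≤ E := by rw [hE]; positivity
  have s1 := r1 J F L sb K G hF
  have s2 := r2 J F L sb K G hF
  have s3 := r3 J F L sb K G hF
  have s4 := r4 J F L sb K G hF
  have s5 := r5 J F L sb K G hF
  have s6 := r6 J F L sb K G hF
  have s7 := r7 J F L sb K G hF
  have s8 := r8 J F L sb K G hF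
  have s9 := r9 J F L sb K G hF
  have s10 := r10 J F L sb K G hF
  have s11 := r11 J F L sb K G hF
  have s12 := r12 J F L sb K G hF
  have s14 := r14 J F L sb K G hF
  have hc : ∀ c : ℝ, c ≤ C → c * (G + 1) + ε / W * lm J ≤ E := by
    intro c hc
    rw [hE]
    have : c * (G + 1) ≤ C * (G + 1) := mul_le_mul_of_nonneg_right hc (by linarith)
    linarith
  have c1 := hc C1 (by rw [hC]; linarith)
  have c2 := hc C2 (by rw [hC]; linarith)
  have c3 := hc C3 (by rw [hC]; linarith)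
  have c4 := hc C4 (by rw [hC]; linarith)
  have c5 := hc C5 (by rw [hC]; linarith)
  have c6 := hc C6 (by rw [hC]; linarith)
  have c7 := hc C7 (by rw [hC]; linarith)
  have c8 := hc C8 (by rw [hC]; linarith)
  have c9 := hc C9 (by rw [hC]; linarith)
  have c10 := hc C10 (by rw [hC]; linarith)
  have c11 := hc C11 (by rw [hC]; linarith)
  have c12 := hc C12 (by rw [hC]; linarith)
  have c14 := hc C14 (by rw [hC]; linarith)
  have t15 : F.mh ≤ 2 * sb := by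
    have h1 := CH_chain hq F.A F.B F.Z
    have h2 : CH F.q F.A (fun w => (F.B w, F.Z w)) ≤ CH F.q F.A F.Z :=
      CH_mono_cond hq (fun w w' _ _ e => (Prod.ext_iff.mp e).2)
    have h3 := hF.sA
    have h4 := hF.sB
    unfold Cf.mh
    linarith
  have t16 : F.rh ≤ lm J := by
    have h1 := CH_time_le hq F.h1 F.ht (fun w => (F.v₁ w, F.C₂ w, F.Z w))
    rw [hl] at h1
    exact h1
  have t17 : 0 ≤ F.et₁ := CH_nonneg hq _ _
  have key := arith (a := a) (Λ := Λ) (L := L) (lm := lm J) (sb := sb) (y := F.y01) (gO := gO F)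
    (xh := F.xh) (e1 := F.et₁) (LL := F.FL.L) (SL := F.FL.sb) (mh := F.mh) (KL := KL F)
    (q := F.qs) (y12 := F.y12) (gY := gY F) (yh := F.yh) (et := F.et) (LI := F.FI.L)
    (SI := F.FI.sb) (xi := F.xi) (η := eta F) (KI := KI F) (rh := F.rh) (K := K) (E := E)
    ha1 ha2 hΛ hE0 hF.K0 (by linarith) (by linarith) (by linarith) (by linarith) (by linarith)
    (by linarith) (by linarith) (by linarith) (by linarith)
    (by unfold gO; linarith) (by unfold gY; linarith) (by linarith) (by linarith) t15 t16 t17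
  have hWE : W * E = W * C * (G + 1) + ε * lm J := by
    rw [hE]
    field_simp
  unfold DD PP kh
  linarith

end Pool.LQ
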