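import Pool.Agent.H60.LQ.Six
import Pool.Agent.H60.LQ.SUM2
import Pool.Agent.H60.LQ.STP

/-!
# LQ6, row STP4: the sum and the step with the exact coefficient of the deficit
-/

set_option autoImplicit false

namespace Pool.LQ

open Finset Real
open Pool.Agent.H49.Ent Pool.Agent.H32.Dense Pool.KTH
open Pool.Agent.H24.KTH (dsv lvv lev cap Yf kp)

/-- The sum with the exact coefficient. -/
def SUM4Stmt : Prop :=
  ∀ (d : ℕ) (a Λ : ℝ), 1 ≤ d → 1 ≤ a → a ≤ 2 → a + 4 ≤ Λ →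
    Esk d (7 * a ^ 2 + 3 * a - 4 + (3 * a - 1) * (Λ - a)) (fun J F L sb =>
      DD a * (L + 2 * lm J) - (PP a * sb + (a - 1) * lm J + kh a * F.y01 -
        a * (a * (F.FL.sb - lm J) + Λ * KL F - F.FL.L) -
        (a - 1) * (a * (F.FI.sb - lm J) + Λ * KI F - F.FI.L)))

namespace SUM4

lemma arith {a Λ L lm sb y gO xh e1 LL SL mh KL q y12 gY yh et LI SI xi η KI rh K E : ℝ}
    (ha1 : 1 ≤ a) (ha2 : a ≤ 2) (hΛ : a + 4 ≤ Λ) (hE : 0 ≤ E) (hK : 0 ≤ K)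
    (h1 : 2 * L + 4 * lm - sb - 2 * y - gO - xh - e1 - LL ≤ 2 * K + E)
    (h2 : SL - lm - (mh - xh - e1 - y - gO - KL) ≤ 4 * K + E)
    (h3 : 3 * L + 6 * lm - 2 * sb - q - y - y12 - gY - yh - et - LI ≤ 5 * K + E)
    (h4 : SI - lm - (sb + xh - yh - xi) ≤ E)
    (h5 : q + KI + gY - η - xi ≤ 2 * K + E)
    (h6 : et + y12 + KI + gY - 2 * η - xi ≤ 2 * K + E)
    (h7 : mh + L + 2 * lm - 2 * sb - rh - yh - η ≤ K + E)
    (h8 : KL + η ≤ 2 * K + E) (h9 : KI - η ≤ K + E)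
    (h10 : -gO ≤ E) (h11 : -gY ≤ E) (h12 : et + y12 - lm ≤ E) (h14 : -η ≤ E)
    (h15 : mh ≤ 2 * sb) (h16 : rh ≤ lm) (h17 : 0 ≤ e1) :
    (a ^ 2 + 3 * a - 2) * (L + 2 * lm) - ((3 * a ^ 2 + 2 * a - 2) * sb + (a - 1) * lm +
        (3 * a - a ^ 2 - 1) * y - a * (a * (SL - lm) + Λ * KL - LL) -
        (a - 1) * (a * (SI - lm) + Λ * KI - LI)) ≤
      (7 * a ^ 2 + 3 * a - 4 + (3 * a - 1) * (Λ - a)) * K + (16 + 4 * (Λ - a)) * E := by
  obtain ⟨b, rfl⟩ : ∃ b : ℝ, a = 1 + b := ⟨a - 1, by ring⟩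
  obtain ⟨lam, rfl⟩ : ∃ lam : ℝ, Λ = lam + (1 + b) := ⟨Λ - (1 + b), by ring⟩
  have hb : 0 ≤ b := by linarith
  have hb1 : b ≤ 1 := by linarith
  have hl : 4 ≤ lam := by linarith
  have hl0 : 0 ≤ lam := by linarith
  have m1 := mul_le_mul_of_nonneg_left h1 (by linarith : (0 : ℝ) ≤ 1 + b)
  have m2 := mul_le_mul_of_nonneg_left h2 (by positivity : (0 : ℝ) ≤ (1 + b) ^ 2)
  have m3 := mul_le_mul_of_nonneg_left h3 hb
  have m4 := mul_le_mul_of_nonneg_left h4 (by positivity : (0 : ℝ) ≤ (1 + b) * b)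
  have m5 := mul_le_mul_of_nonneg_left h5 hb
  have m6 := mul_le_mul_of_nonneg_left h6 (by positivity : (0 : ℝ) ≤ b ^ 2)
  have m7 := mul_le_mul_of_nonneg_left h7 (by positivity : (0 : ℝ) ≤ b ^ 2)
  have m8 := mul_le_mul_of_nonneg_left h8 (by positivity : (0 : ℝ) ≤ (1 + b) * lam)
  have m9 := mul_le_mul_of_nonneg_left h9 (by positivity : (0 : ℝ) ≤ b * lam)
  have m10 := mul_le_mul_of_nonneg_left h10 (by positivity : (0 : ℝ) ≤ (1 + b) * b)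
  have m11 := mul_le_mul_of_nonneg_left h11 (by positivity : (0 : ℝ) ≤ b ^ 2)
  have m12 := mul_le_mul_of_nonneg_left h12 (mul_nonneg hb (by linarith : (0 : ℝ) ≤ 1 - b))
  have hc : 0 ≤ lam - b - 3 * b ^ 2 := by nlinarith
  have m14 := mul_le_mul_of_nonneg_left h14 hc
  have m15 := mul_le_mul_of_nonneg_left h15 (by linarith : (0 : ℝ) ≤ 1 + 2 * b)
  have m16 := mul_le_mul_of_nonneg_left h16 (by positivity : (0 : ℝ) ≤ b ^ 2)
  have m17 := mul_nonneg (by positivity : (0 : ℝ) ≤ (1 + b) * b) h17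
  have hW : 0 ≤ (16 + 4 * lam) - (2 + 7 * b + 2 * b ^ 2 + (2 + 2 * b) * lam) := by
    have : 0 ≤ (1 - b) * lam := mul_nonneg (by linarith) hl0
    nlinarith
  have m19 := mul_nonneg hW hE
  linarith

lemma final {a Λ L sb l y K g C C0 B ε cL cI : ℝ} (ha1 : 1 ≤ a) (ha2 : a ≤ 2) (hε : 0 < ε)
    (hl : 0 ≤ l) (hB : 0 ≤ B)
    (h : (a ^ 2 + 3 * a - 2) * (L + 2 * l) - ((3 * a ^ 2 + 2 * a - 2) * sb + (a - 1) * l +
      (3 * a - a ^ 2 - 1) * y - a * cL - (a - 1) * cI) ≤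
      (7 * a ^ 2 + 3 * a - 4 + (3 * a - 1) * (Λ - a)) * K + C * (C0 * (g + 1) + 1) + ε / 2 * l)
    (hL : -(B + ε / 2 * l) ≤ cL) (hI : -(B + ε / 2 * l) ≤ cI) :
    L ≤ (3 * a ^ 2 + 2 * a - 2) / (a ^ 2 + 3 * a - 2) * (sb - l) -
      (3 * a - a ^ 2 - 1) / (a ^ 2 + 3 * a - 2) * (l - y) +
      (7 * a ^ 2 + 3 * a - 4 + (3 * a - 1) * (Λ - a)) / (a ^ 2 + 3 * a - 2) * K +
      (3 * B + |C * (C0 + 1)|) / (a ^ 2 + 3 * a - 2) +
      C * C0 / (a ^ 2 + 3 * a - 2) * g + ε * l := by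
  have hD : 2 ≤ a ^ 2 + 3 * a - 2 := by nlinarith
  have hD0 : 0 < a ^ 2 + 3 * a - 2 := by linarith
  set D := a ^ 2 + 3 * a - 2 with hDd
  have e1 : D * ((3 * a ^ 2 + 2 * a - 2) / D * (sb - l) -
      (3 * a - a ^ 2 - 1) / D * (l - y) +
      (7 * a ^ 2 + 3 * a - 4 + (3 * a - 1) * (Λ - a)) / D * K +
      (3 * B + |C * (C0 + 1)|) / D + C * C0 / D * g + ε * l) =
      (3 * a ^ 2 + 2 * a - 2) * (sb - l) - (3 * a - a ^ 2 - 1) * (l - y) +
      (7 * a ^ 2 + 3 * a - 4 + (3 * a - 1) * (Λ - a)) * K +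
      (3 * B + |C * (C0 + 1)|) + C * C0 * g + D * (ε * l) := by
    field_simp
  refine le_of_mul_le_mul_left ?_ hD0
  rw [e1]
  have k1 := mul_le_mul_of_nonneg_left hL (by linarith : (0 : ℝ) ≤ a)
  have k2 := mul_le_mul_of_nonneg_left hI (by linarith : (0 : ℝ) ≤ a - 1)
  have hel : 0 ≤ ε * l := by positivity
  have k3 : 2 * (ε * l) ≤ D * (ε * l) := mul_le_mul_of_nonneg_right hD hel
  have k4 : (2 * a - 1) * (B + ε / 2 * l) ≤ 3 * (B + ε / 2 * l) :=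
    mul_le_mul_of_nonneg_right (by linarith) (by linarith)
  have k5 := le_abs_self (C * (C0 + 1))
  have k6 : D * (L + 2 * l) = D * L + 2 * (a ^ 2 + 3 * a - 2) * l := by rw [hDd]; ring
  rw [k6] at h
  linarith

end SUM4

open SUM4 SUM2 STP in
theorem sum4 (hALL : ALL2Stmt) (hALS : ALS2Stmt) (hAIL : AIL2Stmt) (hAIS : AIS2Stmt)
    (hAXI : AXI2Stmt) (hAYY : AYY2Stmt) (hDRV : DRV2Stmt) (hPAR : PAR2Stmt) (hETA : ETA2Stmt)
    (hUFC : UFC2Stmt) : SUM4Stmt := by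
  intro d a Λ hd ha1 ha2 hΛ ε hε
  set W : ℝ := 16 + 4 * (Λ - a) with hW
  have hW0 : 0 < W := by rw [hW]; linarith
  have hε' : 0 < ε / W := by positivity
  obtain ⟨C1, p1, r1⟩ := esk_of_ek (hALL d hd) _ hε'
  obtain ⟨C2, p2, r2⟩ := hALS d hd _ hε'
  obtain ⟨C3, p3, r3⟩ := hAIL d hd _ hε'
  obtain ⟨C4, p4, r4⟩ := esk_of_ek (hAIS d) _ hε'
  obtain ⟨C5, p5, r5⟩ := esk_of_ek (hAXI d hd).1 _ hε'
  obtain ⟨C6, p6, r6⟩ := (hAXI d hd).2 _ hε'
  obtain ⟨C7, p7, r7⟩ := esk_of_ek (hAYY d) _ hε'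
  obtain ⟨C8, p8, r8⟩ := esk_of_ek (hDRV d).1 _ hε'
  obtain ⟨C9, p9, r9⟩ := esk_of_ek (hDRV d).2 _ hε'
  obtain ⟨C10, p10, r10⟩ := esk_of_eg (hPAR d hd).1 _ hε'
  obtain ⟨C11, p11, r11⟩ := esk_of_eg (hPAR d hd).2 _ hε'
  obtain ⟨C12, p12, r12⟩ := esk_of_eg (hETA d hd) _ hε'
  obtain ⟨C14, p14, r14⟩ := esk_of_ek (hUFC d).2.2.2.2 _ hε'
  set C : ℝ := C1 + C2 + C3 + C4 + C5 + C6 + C7 + C8 + C9 + C10 + C11 + C12 + C14 with hC
  have hC0 : 0 ≤ C := by rw [hC]; positivity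
  refine ⟨W * C, by positivity, ?_⟩
  intro J F L sb K G hF
  have hG := hF.G0
  have hlm : 0 ≤ lm J := by unfold lm; positivity
  have hq := F.hq
  have hl : Real.log ((2 ^ J : ℕ) : ℝ) = lm J := by
    unfold lm
    push_cast
    rw [Real.log_pow]
  set E : ℝ := C * (G + 1) + ε / W * lm J with hE
  have hE0 : 0 ≤ E := by rw [hE]; positivity
  have s1 := r1 J F L sb K G hF
  have s2 := r2 J F L sb K G hF
  have s3 := r3 J F L sb K G hF
  have s4 := r4 J F L sb K G hF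
  have s5 := r5 J F L sb K G hF
  have s6 := r6 J F L sb K G hF
  have s7 := r7 J F L sb K G hF
  have s8 := r8 J F L sb K G hF
  have s9 := r9 J F L sb K G hF
  have s10 := r10 J F L sb K G hF
  have s11 := r11 J F L sb K G hF
  have s12 := r12 J F L sb K G hF
  have s14 := r14 J F L sb K G hF
  have hc : ∀ c : ℝ, c ≤ C → c * (G + 1) + ε / W * lm J ≤ E := by
    intro c hc
    rw [hE]
    have : c * (G + 1) ≤ C * (G + 1) := mul_le_mul_of_nonneg_right hc (by linarith)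
    linarith
  have c1 := hc C1 (by rw [hC]; linarith)
  have c2 := hc C2 (by rw [hC]; linarith)
  have c3 := hc C3 (by rw [hC]; linarith)
  have c4 := hc C4 (by rw [hC]; linarith)
  have c5 := hc C5 (by rw [hC]; linarith)
  have c6 := hc C6 (by rw [hC]; linarith)
  have c7 := hc C7 (by rw [hC]; linarith)
  have c8 := hc C8 (by rw [hC]; linarith)
  have c9 := hc C9 (by rw [hC]; linarith)
  have c10 := hc C10 (by rw [hC]; linarith)
  have c11 := hc C11 (by rw [hC]; linarith)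
  have c12 := hc C12 (by rw [hC]; linarith)
  have c14 := hc C14 (by rw [hC]; linarith)
  have t15 : F.mh ≤ 2 * sb := by
    have h1 := CH_chain hq F.A F.B F.Z
    have h2 : CH F.q F.A (fun w => (F.B w, F.Z w)) ≤ CH F.q F.A F.Z :=
      CH_mono_cond hq (fun w w' _ _ e => (Prod.ext_iff.mp e).2)
    have h3 := hF.sA
    have h4 := hF.sB
    unfold Cf.mh
    linarith
  have t16 : F.rh ≤ lm J := by
    have h1 := CH_time_le hq F.h1 F.ht (fun w => (F.v₁ w, F.C₂ w, F.Z w))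
    rw [hl] at h1
    exact h1
  have t17 : 0 ≤ F.et₁ := CH_nonneg hq _ _
  have key := SUM4.arith (a := a) (Λ := Λ) (L := L) (lm := lm J) (sb := sb) (y := F.y01) (gO := gO F)
    (xh := F.xh) (e1 := F.et₁) (LL := F.FL.L) (SL := F.FL.sb) (mh := F.mh) (KL := KL F)
    (q := F.qs) (y12 := F.y12) (gY := gY F) (yh := F.yh) (et := F.et) (LI := F.FI.L)
    (SI := F.FI.sb) (xi := F.xi) (η := eta F) (KI := KI F) (rh := F.rh) (K := K) (E := E)
    ha1 ha2 hΛ hE0 hF.K0 (by linarith) (by linarith) (by linarith) (by linarith) (by linarith)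
    (by linarith) (by linarith) (by linarith) (by linarith)
    (by unfold gO; linarith) (by unfold gY; linarith) (by linarith) (by linarith) t15 t16 t17
  have hWE : W * E = W * C * (G + 1) + ε * lm J := by
    rw [hE]
    field_simp
  unfold DD PP kh
  linarith

open SUM4 STP in
theorem stp4 (hSUM : SUM4Stmt) (hCFG : CFG2Stmt) (hSBP : SBPStmt) : STP4Stmt := by
  intro d a Λ hd ha1 ha2 hΛ hA ε hε
  obtain ⟨C, hC, hs⟩ := hSUM d a Λ hd ha1 ha2 hΛ (ε / 2) (by positivity)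
  obtain ⟨C0, hC0, hc⟩ := hCFG
  obtain ⟨B, hB⟩ := hA (ε / 2) (by positivity)
  have hD0 : 0 < a ^ 2 + 3 * a - 2 := by nlinarith
  refine ⟨(3 * |B| + |C * (C0 + 1)|) / (a ^ 2 + 3 * a - 2), C * C0 / (a ^ 2 + 3 * a - 2),
    by positivity, ?_⟩
  intro J Ω _ ζ p Z v u τ h
  let G : Fm d J := ⟨Ω, ζ, inferInstance, p, Z, v, u, τ, h⟩
  obtain ⟨F, hF, hy⟩ := hc d J G
  have h1 := hs J F G.L G.sb _ _ hF
  have hL := aks_fm hSBP hB F.FL
  have hI := aks_fm hSBP hB F.FI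
  have hl0 : 0 ≤ lm J := by unfold lm; positivity
  beta_reduce at h1
  rw [hy] at h1
  unfold DD PP kh at h1
  have key := SUM4.final (a := a) (Λ := Λ) (L := G.L) (sb := G.sb) (l := lm J) (y := G.Y)
    (K := Kf (2 ^ J) G.p (bv G.Z G.v) G.τ) (g := Gf (2 ^ J) G.p (bv G.Z G.v) G.τ) (C := C)
    (C0 := C0) (B := |B|) (ε := ε)
    (cL := a * (F.FL.sb - lm J) + Λ * KL F - F.FL.L)
    (cI := a * (F.FI.sb - lm J) + Λ * KI F - F.FI.L) ha1 ha2 hε hl0 (abs_nonneg _) h1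
    (by
      have : KL F = lm J - CH F.FL.p F.FL.τ (fun w => (F.FL.v w, F.FL.Z w)) := rfl
      rw [this]
      linarith)
    (by
      have : KI F = lm J - CH F.FI.p F.FI.τ (fun w => (F.FI.v w, F.FI.Z w)) := rfl
      rw [this]
      linarith)
  have e1 : G.sb = Sb (2 ^ J) p Z v u τ := (hSBP d J Ω ζ p Z v u τ h).1.symm
  rw [e1] at key
  exact key

end Pool.LQ
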