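import Pool.Agent.H24.KTH.Top
import Pool.Agent.H32.Dense.Iface
import Pool.Agent.H53.Kak.Norm

/-!
# LQ: the inequality for tubes without loss, from the entropy inequality with point entropies

Families of lines `(u, v)` with a random time as in `H32/Dense`, resolution `M = 2 ^ J`. The main
quantity is the entropy `Sb` of the point (time, position); inequalities are written as
`H(v | Z) ≤ a (Sb - log M) + Λ K + ..` (sb-form), `K` the deficit of the times.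
-/

set_option autoImplicit false

namespace Pool.LQ

open Finset Real
open Pool.Agent.H49.Ent Pool.Agent.H32.Dense Pool.Agent.H24.KTH

/-- The entropy of the point: time and rounded position. -/
noncomputable def Sb {d : ℕ} {Ω : Type} [Fintype Ω] {ζ : Type} (M : ℕ) (p : Ω → ℝ) (Z : Ω → ζ)
    (v : Ω → Fin d → ℤ) (u : Ω → Fin d → ℝ) (τ : Ω → ℤ) : ℝ :=
  CH p τ Z + Sf M p Z v u τ

/-- The inequality in sb-form, with constants. -/
def Ag (d : ℕ) (a Λ B₀ B₁ ε : ℝ) : Prop :=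
  ∀ (J : ℕ) (Ω : Type) [Fintype Ω] (ζ : Type) (p : Ω → ℝ) (Z : Ω → ζ) (v : Ω → Fin d → ℤ)
    (u : Ω → Fin d → ℝ) (τ : Ω → ℤ), IsFam (2 ^ J) p Z v u τ →
    CH p v Z ≤ a * (Sb (2 ^ J) p Z v u τ - J * Real.log 2) + Λ * Kf (2 ^ J) p (bv Z v) τ + B₀ +
      B₁ * Gf (2 ^ J) p (bv Z v) τ + ε * (J * Real.log 2)

/-- The inequality with the logarithmic energy of the times as an error term. -/
def AKSG (d : ℕ) (a Λ : ℝ) : Prop := ∀ ε : ℝ, 0 < ε → ∃ B₀ B₁ : ℝ, 0 ≤ B₁ ∧ Ag d a Λ B₀ B₁ ε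

/-- The inequality for all families. -/
def AKS (d : ℕ) (a Λ : ℝ) : Prop := ∀ ε : ℝ, 0 < ε → ∃ B₀ : ℝ, Ag d a Λ B₀ 0 ε

/-- The inequality with a gain `k` for large angles. -/
def GapG (d : ℕ) (a Λ k : ℝ) : Prop :=
  ∀ ε : ℝ, 0 < ε → ∃ B₀ B₁ : ℝ, 0 ≤ B₁ ∧
  ∀ (J : ℕ) (Ω : Type) [Fintype Ω] (ζ : Type) (p : Ω → ℝ) (Z : Ω → ζ) (v : Ω → Fin d → ℤ)
    (u : Ω → Fin d → ℝ) (τ : Ω → ℤ), IsFam (2 ^ J) p Z v u τ →
    CH p v Z ≤ a * (Sb (2 ^ J) p Z v u τ - J * Real.log 2) -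
      k * (J * Real.log 2 - Yf (2 ^ J) p Z v u τ) + Λ * Kf (2 ^ J) p (bv Z v) τ + B₀ +
      B₁ * Gf (2 ^ J) p (bv Z v) τ + ε * (J * Real.log 2)

/-- The new exponent of the step. -/
noncomputable def nx (a : ℝ) : ℝ := (3 * a ^ 2 + 2 * a - 2) / (a ^ 2 + 3 * a - 2)

/-- The new coefficient of the deficit. -/
noncomputable def lp (a Λ : ℝ) : ℝ :=
  (7 * a ^ 2 + 4 * a - 5 + (3 * a - 1) * (Λ - a)) / (a ^ 2 + 3 * a - 2)

/-- The number of positions at the time `j` of the lines which have `j` among their times. -/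
noncomputable def cl {d N : ℕ} (J : ℕ) (u : Fin N → Fin d → ℝ) (v : Fin N → Fin d → ℤ)
    (A : Fin N → Finset ℤ) (j : ℤ) : ℝ :=
  (((univ.filter fun i => j ∈ A i).image fun i => rd (pos (2 ^ J) (u i) (v i) j)).card : ℝ)

/-- The counting form for sets of times with bounded logarithmic potentials, with a small loss. -/
def DenseSb (d : ℕ) (a Λ : ℝ) : Prop :=
  ∀ ε : ℝ, 0 < ε → ∀ G₀ : ℝ, ∃ c : ℝ, 0 < c ∧ ∀ (J N : ℕ) (u : Fin N → Fin d → ℝ)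
    (v : Fin N → Fin d → ℤ) (A : Fin N → Finset ℤ) (κ : ℝ), 0 < κ → Function.Injective v →
    (∀ i k, |v i k| ≤ 2 ^ J) → (∀ i, A i ⊆ Finset.Ico 0 (2 ^ J : ℤ)) →
    (∀ i, κ * 2 ^ J ≤ (A i).card) →
    (∀ i, ∀ x ∈ A i, ∑ y ∈ A i, ell (2 ^ J) x y ≤ G₀ * (A i).card) →
    c * ((2 : ℝ) ^ J) ^ (-ε) * (2 ^ J * κ ^ (Λ / a) * (N : ℝ) ^ (1 / a)) ≤
      ∑ j ∈ Finset.Ico 0 (2 ^ J : ℤ), cl J u v A j

end Pool.LQ
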