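import Pool.Agent.H12.KTH.Stmts
import Pool.Agent.H60.LQ.Stmts

/-!
# LQ: the step with explicit coefficients (twins of the rows of sections 1 - 6 of KTH)

The configurations `Cf d J` and all their quantities are those of `H12/KTH/Defs`. Here the deficit
`K` of the times has an explicit coefficient, and the closeness of times (`F.en`, a sum of energies)
is a separate error. Units in the docstrings: `lm J = 1`. `H(X|Y)` is `CH q X Y` (always with `Z`).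
-/

set_option autoImplicit false

namespace Pool.LQ

open Finset Real
open Pool.Agent.H49.Ent Pool.Agent.H32.Dense Pool.KTH
open Pool.Agent.H24.KTH (dsv lvv lev cap Yf kp)

variable {d J : ℕ}

/-- The sum of the energies of the times of a configuration (the ten terms of TMS). -/
noncomputable def en (F : Cf d J) : ℝ :=
  F.eg F.t F.s + F.eg F.t₁ F.t + F.eg F.t₁ F.s + F.eg F.r F.t + F.eg F.r F.s + F.eg F.r F.t₁ +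
    F.eg F.tr F.s + F.eg F.ta F.s + F.eg F.ta F.tr + F.eg F.ta F.TO

/-- The deficit of the first coefficient: `lm - H(c | v₀, v₁, t, s)`. -/
noncomputable def eta (F : Cf d J) : ℝ :=
  lm J - CH F.q F.c (fun w => (F.v01 w, (F.t w, F.s w), F.Z w))

/-- The deficit of the times of the family of the lines 1 given `O`. -/
noncomputable def KL (F : Cf d J) : ℝ := lm J - CH F.q F.r (fun w => (F.v₁ w, F.O w, F.Z w))

/-- The deficit of the times of the family of the lines 2 given `Y`. -/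
noncomputable def KI (F : Cf d J) : ℝ := lm J - CH F.q F.ta (fun w => (F.v₂ w, F.Y w, F.Z w))

/-- `2 - y01 - H(O | v₀, v₁)`. -/
noncomputable def gO (F : Cf d J) : ℝ :=
  2 * lm J - F.y01 - CH F.q F.O (fun w => (F.v01 w, F.Z w))

/-- `2 - y12 - H(Y | v₁, v₂)`. -/
noncomputable def gY (F : Cf d J) : ℝ :=
  2 * lm J - F.y12 - CH F.q F.Y (fun w => (F.v12 w, F.Z w))

/-- The entropies of a configuration: `K` is the deficit of the times, `G` bounds the energies. -/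
structure Okk (F : Cf d J) (L sb K G : ℝ) : Prop where
  K0 : 0 ≤ K
  G0 : 0 ≤ G
  cp : 2 * L + 2 * lm J - sb - 2 * K ≤ CH F.q (fun w => (F.v01 w, F.t w)) F.Z
  cl : 3 * L + 4 * lm J - 2 * sb - 4 * K ≤ CH F.q (fun w => (F.v3 w, F.t w, F.s w)) F.Z
  cv : L + lm J - sb - K ≤ CH F.q F.v₁ (fun w => ((F.P w, F.C₂ w), F.Z w))
  cs : lm J - K ≤ CH F.q F.s (fun w => (F.v01 w, F.t w, F.Z w))
  ct₁ : lm J - K ≤
    CH F.q F.t₁ (fun w => (F.v3 w, (F.t w, F.s w), (F.r w, F.tr w, F.ta w), F.Z w))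
  cr : lm J - K ≤
    CH F.q F.r (fun w => (F.v3 w, (F.t w, F.s w), (F.t₁ w, F.tr w, F.ta w), F.Z w))
  ctr : lm J - K ≤
    CH F.q F.tr (fun w => (F.v3 w, (F.t w, F.s w), (F.t₁ w, F.r w, F.ta w), F.Z w))
  cta : lm J - K ≤
    CH F.q F.ta (fun w => (F.v3 w, (F.t w, F.s w), (F.t₁ w, F.r w, F.tr w), F.Z w))
  /-- the first coefficient is independent of the line 2 -/
  ci : CH F.q F.c (fun w => (F.v01 w, (F.t w, F.s w), F.Z w)) ≤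
    CH F.q F.c (fun w => (F.v3 w, (F.t w, F.s w, F.tr w, F.ta w), F.Z w))
  /-- the time `s` is independent of `r` and `t₁` -/
  cst : lm J - K ≤ CH F.q F.s (fun w => (F.v01 w, (F.t w, F.t₁ w, F.r w), F.Z w))
  l0 : CH F.q F.v₀ F.Z = L
  l1 : CH F.q F.v₁ F.Z = L
  l2 : CH F.q F.v₂ F.Z = L
  sC : CH F.q F.C F.Z ≤ sb
  sA : CH F.q F.A F.Z ≤ sb
  sB : CH F.q F.B F.Z ≤ sb
  sC₂ : CH F.q F.C₂ F.Z ≤ sb
  sA₂ : CH F.q F.A₂ F.Z ≤ sb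
  sym : CH F.q (fun w => (F.P w, F.C₂ w)) F.Z = F.mh
  ge : en F ≤ G

/-- `f ≤ C (en + 1 + log (J + 2))` for ALL configurations (pure geometry, no hypothesis on the
entropies). -/
def Eg (d : ℕ) (f : ∀ J : ℕ, Cf d J → ℝ) : Prop :=
  ∃ C : ℝ, 0 ≤ C ∧ ∀ (J : ℕ) (F : Cf d J), f J F ≤ C * (en F + 1 + Real.log (J + 2))

/-- `f ≤ k K + C (G + 1 + log (J + 2))`. -/
def Ek (d : ℕ) (k : ℝ) (f : ∀ J : ℕ, Cf d J → ℝ → ℝ → ℝ) : Prop :=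
  ∃ C : ℝ, 0 ≤ C ∧ ∀ (J : ℕ) (F : Cf d J) (L sb K G : ℝ), Okk F L sb K G →
    f J F L sb ≤ k * K + C * (G + 1 + Real.log (J + 2))

/-- `f ≤ k K + C (G + 1) + ε log M`. -/
def Esk (d : ℕ) (k : ℝ) (f : ∀ J : ℕ, Cf d J → ℝ → ℝ → ℝ) : Prop :=
  ∀ ε : ℝ, 0 < ε → ∃ C : ℝ, 0 ≤ C ∧ ∀ (J : ℕ) (F : Cf d J) (L sb K G : ℝ), Okk F L sb K G →
    f J F L sb ≤ k * K + C * (G + 1) + ε * lm J

/-- (ALG2) Algebra of the error terms: sums, multiples, comparison. `log (J + 2) ≤ ε J log 2 + C`. -/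
def ALG2Stmt : Prop :=
  ∀ d : ℕ, (∀ k l (f g : ∀ J : ℕ, Cf d J → ℝ → ℝ → ℝ), Ek d k f → Ek d l g →
      Ek d (k + l) (fun J F L sb => f J F L sb + g J F L sb)) ∧
    (∀ k l (f g : ∀ J : ℕ, Cf d J → ℝ → ℝ → ℝ), Esk d k f → Esk d l g →
      Esk d (k + l) (fun J F L sb => f J F L sb + g J F L sb)) ∧
    (∀ k (f : ∀ J : ℕ, Cf d J → ℝ → ℝ → ℝ), Ek d k f → Esk d k f) ∧
    (∀ f : ∀ J : ℕ, Cf d J → ℝ, Eg d f → Ek d 0 (fun J F _ _ => f J F)) ∧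
    (∀ k c (f : ∀ J : ℕ, Cf d J → ℝ → ℝ → ℝ), 0 ≤ c → Ek d k f →
      Ek d (c * k) (fun J F L sb => c * f J F L sb)) ∧
    (∀ k c (f : ∀ J : ℕ, Cf d J → ℝ → ℝ → ℝ), 0 ≤ c → Esk d k f →
      Esk d (c * k) (fun J F L sb => c * f J F L sb)) ∧
    (∀ k l (f g : ∀ J : ℕ, Cf d J → ℝ → ℝ → ℝ), k ≤ l → Ek d k f →
      (∀ J F L sb, g J F L sb ≤ f J F L sb) → Ek d l g) ∧
    (∀ k l (f g : ∀ J : ℕ, Cf d J → ℝ → ℝ → ℝ), k ≤ l → Esk d k f →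
      (∀ J F L sb, g J F L sb ≤ f J F L sb) → Esk d l g)

/-! ### Geometry: strong forms of KPS, CGP, UPT, SEP, PAR, DIR, CHD, ETA (no `Ok`)

The typed proofs of these rows of `kth` use the entropies `Ok` only through the energies of TMS (and
`h1`, `hq`, ranges, `cross`): replace `F.Ok ..` and `C * er J e` by `C * (en F + 1 + log (J + 2))`. -/

/-- (KPS2) -/
def KPS2Stmt : Prop :=
  ∀ d : ℕ, Eg d (fun _ F => Ex F.q (fun w => Real.log (1 + |F.k₁ w|)) +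
    Ex F.q (fun w => Real.log (1 + |F.k₁ w|⁻¹)) + Ex F.q (fun w => Real.log (1 + |F.k₂ w|)) +
    Ex F.q (fun w => Real.log (1 + |F.k₂ w|⁻¹)))

/-- (CGP2) -/
def CGP2Stmt : Prop :=
  ∀ d : ℕ, Eg d (fun _ F => F.big F.c + F.sml F.c + F.big F.c₂ + F.sml F.c₂)

/-- (UPT2) -/
def UPT2Stmt : Prop :=
  ∀ d : ℕ, Eg d (fun J F => CH F.q F.c F.Z - lm J) ∧ Eg d (fun J F => CH F.q F.c₂ F.Z - lm J) ∧
    Eg d (fun J F => CH F.q F.TO F.Z - lm J) ∧ Eg d (fun J F => CH F.q F.TY F.Z - lm J)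

/-- (SEP2) -/
def SEP2Stmt : Prop :=
  ∀ d : ℕ, 1 ≤ d → Eg d (fun _ F => CH F.q F.t (fun w => (F.v01 w, F.Z w)) - F.y01) ∧
    Eg d (fun _ F => CH F.q F.s (fun w => (F.v12 w, F.O w, F.Z w)) - F.y12)

/-- (PAR2) -/
def PAR2Stmt : Prop :=
  ∀ d : ℕ, 1 ≤ d →
    Eg d (fun J F => CH F.q F.O (fun w => (F.v01 w, F.Z w)) + F.y01 - 2 * lm J) ∧
    Eg d (fun J F => CH F.q F.Y (fun w => (F.v12 w, F.Z w)) + F.y12 - 2 * lm J)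

/-- (DIR2) -/
def DIR2Stmt : Prop :=
  ∀ d : ℕ, Eg d (fun _ F => CH F.q F.v₁ (fun w => (F.Y w, F.C₂ w, F.Z w)))

/-- (CHD2) -/
def CHD2Stmt : Prop :=
  ∀ d : ℕ, Eg d (fun _ F => CH F.q F.O (fun w => ((F.A w, F.B w), F.TO w, F.Z w))) ∧
    Eg d (fun _ F => CH F.q F.Y (fun w => ((F.A₂ w, F.O w), F.TY w, F.Z w)))

/-- (ETA2) -/
def ETA2Stmt : Prop := ∀ d : ℕ, 1 ≤ d → Eg d (fun J F => F.et + F.y12 - lm J)

/-! ### Times -/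

/-- (UFC2) (1) As UFC (1): given also `t₁`, `c = ⌊k₁ (r - t)⌋`, `r` uniform. (2) chain rule: `cs` and
the definition of `eta`. (3) `H(r | c, ..) = H(r | ..) + H(c | r, ..) - H(c | ..)`, where
`H(c | ..) = 1 - eta` exactly, `H(r | ..) ≥ 1 - K`, `H(c | r, ..) ≥ H(t₁ | ..) - ..≥ 1 - K - ..`.
(4) `eta ≤ K` from (1), `- eta ≤ 0` from UPT2. -/
def UFC2Stmt : Prop :=
  ∀ d : ℕ, Ek d 1 (fun J F _ _ => lm J - CH F.q F.c
      (fun w => (F.v3 w, (F.t w, F.s w, F.t₁ w, F.tr w, F.ta w), F.Z w))) ∧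
    Ek d 1 (fun J F _ _ => 2 * lm J - CH F.q (fun w => (F.s w, F.c w))
      (fun w => (F.v01 w, F.t w, F.Z w)) - eta F) ∧
    Ek d 2 (fun J F _ _ => lm J - CH F.q F.r (fun w => (F.v01 w, (F.t w, F.s w, F.c w), F.Z w)) +
      eta F) ∧
    Ek d 1 (fun _ F _ _ => eta F) ∧ Ek d 0 (fun _ F _ _ => -eta F)

/-- (UFT2) As UFT, with `cst`: `H(t₁, T_O | v₀ v₁ t r) ≥ (1 - K) + (1 - K)`. -/
def UFT2Stmt : Prop :=
  ∀ d : ℕ, Ek d 2 (fun J F _ _ => 2 * lm J - CH F.q (fun w => (F.t₁ w, F.TO w))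
    (fun w => (F.v01 w, (F.t w, F.r w), F.Z w)))

/-- (UFD2) (1) `tr` is uniform (`K`); given `tr, ta`, `H(c | ..) ≥ 1 - eta` (`ci`) and `c` has
`1 + |k₂|⁻¹` values given `c₂`. (2) from the same: `H(c₂ | v3, t, s, tr) ≥ H(c₂ | .., ta)`.
(3) `H(ta | .., c₂) = H(ta | ..) + H(c₂ | ta, ..) - H(c₂ | ..) ≥ (1 - K) + (1 - eta) - 1` (UPT2).
(4) `H(c | v3, t, s, ta) ≥ 1 - eta` (`ci`), `H(T_Y | c, ..) ≥ H(tr | ..) - .. ≥ 1 - K` as UFD (4). -/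
def UFD2Stmt : Prop :=
  ∀ d : ℕ, Ek d 1 (fun J F _ _ => 2 * lm J - CH F.q (fun w => (F.tr w, F.c₂ w))
      (fun w => (F.v3 w, (F.t w, F.s w, F.ta w), F.Z w)) - eta F) ∧
    Ek d 0 (fun J F _ _ => lm J - CH F.q F.c₂ (fun w => (F.v3 w, (F.t w, F.s w, F.tr w), F.Z w)) -
      eta F) ∧
    Ek d 1 (fun J F _ _ => lm J - CH F.q F.ta
      (fun w => (F.v3 w, (F.t w, F.s w, F.tr w, F.c₂ w), F.Z w)) - eta F) ∧
    Ek d 1 (fun J F _ _ => 2 * lm J - CH F.q (fun w => (F.c w, F.TY w))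
      (fun w => (F.v3 w, (F.t w, F.s w, F.ta w), F.Z w)) - eta F)

/-- (DRV2) `KL ≤ 2 K - eta` from UFC2 (3) and `KI ≤ K + eta` from UFD2 (3): `O` is a function of
`(v₀, v₁), s, c, Z`, and `Y` of `v₁, v₂, tr, c₂, Z`. -/
def DRV2Stmt : Prop :=
  ∀ d : ℕ, Ek d 2 (fun _ F _ _ => KL F + eta F) ∧ Ek d 1 (fun _ F _ _ => KI F - eta F)

/-- (T1R2) `H(t₁, r, O | v₀ v₁) ≥ 3 - 3 K`: `H(r | v₀ v₁ ..) ≥ 1 - K` and UFT2
(`H(t₁, O | v₀ v₁ r) ≥ H(t₁, T_O | v₀ v₁ t r)`). -/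
def T1R2Stmt : Prop :=
  ∀ d : ℕ, Ek d 3 (fun J F _ _ => 3 * lm J - CH F.q (fun w => ((F.t₁ w, F.r w), F.O w))
    (fun w => (F.v01 w, F.Z w)))

/-! ### Córdoba's argument -/

/-- (SCL2) Scalar families (direction `g`, position `x`, time `T`; `x` need not be determined by
`g`), explicit: `H(g|Z) ≤ H(T, X|Z) - 1 + 2 K₁`, `X = ⌊x + T g / M⌋`, `K₁ = 1 - H(T | g, x, Z)`.
Proof (two copies; no library theorem needed): `B := (T, X, Z)`, `dbl q B`: second copy `g', x'` (the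
time is the same). `H(g, x, g', x', T) = 2 H(g, x, T) - H(T, X)` and
`H(g, x, T) = H(g, x) + 1 - K₁`. On the other side, `b` = dyadic class of `max 1 |g - g'|`
(`H(b) ≤ log (J + 3)`): `H(g, x, g', x', T) ≤ H(g, x) + H(g' | g, b) + H(b) + H(x' | g') +
H(T | g, x, g', x', b)`, `H(g' | g, b) ≤ b log 2 + C`, `H(T | ..) ≤ J log 2 - b log 2 + C`, because
`|x - x' + T (g - g') / M| < 1` (`H(T | ..) ≤ 1 + C + ..` if `g = g'`: `|T| / M` is bounded in the mean,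
CEN of KTH or `CH_le_tail`), and `H(x' | g') = H(x | g)`. So `H(g) ≤ H(T, X) - 1 + 2 K₁ + ..`. -/
def SCL2Stmt : Prop :=
  ∀ ε : ℝ, 0 < ε → ∃ C : ℝ, 0 ≤ C ∧ ∀ (J : ℕ) (Ω ζ : Type) [Fintype Ω]
    (q : Ω → ℝ) (Z : Ω → ζ) (g : Ω → ℤ) (x : Ω → ℝ) (T : Ω → ℤ), (∀ w, 0 ≤ q w) →
    ∑ w, q w = 1 → (∀ w, 0 < q w → |g w| ≤ 2 * 2 ^ J) →
    CH q g Z ≤ CH q (fun w => (T w, ⌊x w + T w / 2 ^ J * g w⌋)) Z - lm J +
      2 * (lm J - CH q T (fun w => ((g w, x w), Z w))) +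
      C * (1 + Ex q (fun w => Real.log (1 + |(T w : ℝ)| / 2 ^ J))) + ε * lm J

/-- (FCK2) FACT K, explicit; as FCK with SCL2. `Z' = (v, k, b, E, Z)`, `g = (v' - v)_k`,
`x = (u' - u)_k`, `T = r`, `X = ⌊(X' - X)_k (r)⌋`, `B = (r, rd (X' r))`, `e'' := 1 - H(r | v, v', Z) ≤ e`:
`H(v'|Z') ≤ H(g|Z') + C ≤ H(r, X|Z') - 1 + 2 e'' ≤ H(B|Z') - 1 + 2 e'' + C`,
`H(v'|B Z') = H(v'|Z') + H(r|v' Z') - H(B|Z') ≤ e''`. `H(Z'|v, B, Z)` as in FCK, by the mean of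
`gp J r t`. -/
def FCK2Stmt : Prop :=
  ∀ d : ℕ, 1 ≤ d → ∀ ε : ℝ, 0 < ε → ∃ C : ℝ, 0 ≤ C ∧ ∀ (J : ℕ)
    (Ω ζ : Type) [Fintype Ω] (q : Ω → ℝ) (Z : Ω → ζ) (v v' : Ω → Fin d → ℤ)
    (u u' : Ω → Fin d → ℝ) (t r : Ω → ℤ) (e : ℝ), (∀ w, 0 ≤ q w) → ∑ w, q w = 1 →
    (∀ w, 0 < q w → ∀ k, |v w k| ≤ 2 ^ J) → (∀ w, 0 < q w → ∀ k, |v' w k| ≤ 2 ^ J) →
    Det q (fun w => (v w, Z w)) u → Det q (fun w => (v' w, Z w)) u' →
    (∀ w, 0 < q w → 0 ≤ t w ∧ t w < 2 ^ J) → (∀ w, 0 < q w → 0 ≤ r w ∧ r w < 2 ^ J) →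
    (∀ w, 0 < q w → rd (pos (2 ^ J) (u w) (v w) (t w)) = rd (pos (2 ^ J) (u' w) (v' w) (t w))) →
    lm J - e ≤ CH q r (fun w => ((v w, v' w), Z w)) →
    CH q v' (fun w => (v w, pp J u' v' r w, Z w)) ≤
      e + C * (1 + Ex q (fun w => gp J (r w) (t w))) + ε * lm J

/-- (FCO2) FACT K', explicit: `H(v₁ | O, v₂) ≤ qs - H(s | v₁, v₂, O) + eta`. As FCO with SCL2:
`g = (v₁ - v₂)_k`, `x = - (s / M) g`, `T = T_O`, `e'' := 1 - H(c | v₁, v₂, s) ≤ eta` (`ci`):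
`H(O|Z') ≥ H(T_O, X|Z') - C ≥ H(v₁|Z') + 1 - 2 e''`,
`H(v₁, s, O|Z') = H(v₁, s|Z') + 1 - e''` up to `C`. -/
def FCO2Stmt : Prop :=
  ∀ d : ℕ, 1 ≤ d → Esk d 0 (fun _ F _ _ => CH F.q F.v₁ (fun w => (F.O w, F.v₂ w, F.Z w)) - F.qs +
    CH F.q F.s (fun w => (F.v12 w, F.O w, F.Z w)) - eta F)

/-! ### The inequalities -/

/-- (TLN2) (1) `cp`, SEP2. (2) `cl`, `H(v₀, t, s|v₁ v₂) ≤ qs + H(v₀|v₁ C) + y01`, the second is
`≤ K` by FCK2 (`v = v₁`, `v' = v₀`, `r = s`, `cs`). -/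
def TLN2Stmt : Prop :=
  ∀ d : ℕ, 1 ≤ d →
    Ek d 2 (fun J F L sb => 2 * L + 2 * lm J - sb - F.y01 - CH F.q F.v01 F.Z) ∧
    Esk d 5 (fun J F L sb => 3 * L + 4 * lm J - 2 * sb - F.qs - F.y01 - CH F.q F.v12 F.Z)

/-- (ALL2) `H(v₁|O) = H(v₀ v₁) + H(O|v₀ v₁) - xh - et₁`, TLN2 (1), definition of `gO`. -/
def ALL2Stmt : Prop :=
  ∀ d : ℕ, 1 ≤ d →
    Ek d 2 (fun J F L sb => 2 * L + 4 * lm J - sb - 2 * F.y01 - gO F - F.xh - F.et₁ - F.FL.L)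

/-- (ALS2) Points of the family of the lines 1 given `O`: `H(B|O) = H(A, B, O) - H(A|B O) - xh`,
`H(A, B, O) ≤ mh + 1` (CHD2, UPT2), `H(A|B O) ≥ H(A|v₁ r O) ≥ H(v₀, t₁|v₁ r O) - H(v₀|v₁ A)`,
`H(v₀, t₁|v₁ r O) = et₁ + H(t₁, r|v₀ v₁ O) - H(r|v₁ O) = et₁ + H(t₁, r, O|v₀ v₁) - H(O|v₀ v₁)
- (1 - KL) ≥ et₁ + (3 - 3 K) - (2 - y01 - gO) - 1 + KL` (T1R2), and `H(v₀|v₁ A) ≤ K` (FCK2). -/
def ALS2Stmt : Prop :=
  ∀ d : ℕ, 1 ≤ d → Esk d 4 (fun J F _ _ => F.FL.sb - lm J -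
    (F.mh - F.xh - F.et₁ - F.y01 - gO F - KL F))

/-- (AIL2) `H(v₂|Y) = H(v₁ v₂) + H(Y|v₁ v₂) - yh - et`; TLN2 (2), definition of `gY`. -/
def AIL2Stmt : Prop :=
  ∀ d : ℕ, 1 ≤ d →
    Esk d 5 (fun J F L sb => 3 * L + 6 * lm J - 2 * sb - F.qs - F.y01 - F.y12 - gY F - F.yh -
      F.et - F.FI.L)

/-- (AIS2) `H(A₂|Y) = H(A₂, O, Y) - xi - yh ≤ sb + xh + 1 - xi - yh` (CHD2, UPT2). -/
def AIS2Stmt : Prop :=
  ∀ d : ℕ, Ek d 0 (fun J F _ sb => F.FI.sb - lm J - (sb + F.xh - F.yh - F.xi))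

/-- (AXI2) `xi ≥ H(v₁|v₂ ta Y) + H(s, O|v₁ v₂ ta Y) - ω - third`, where
`H(v₁|v₂ ta Y) = et - (1 - KI) + H(ta|v₁ v₂ Y)`, so the first two terms are
`et - 1 + KI + H(ta, s, O, Y|v₁ v₂) - H(Y|v₁ v₂)`, and `H(ta, s, O, Y|v₁ v₂) ≥ qs + (1 - K)
[ta given everything] + H(c, T_Y|v3 t s ta) ≥ qs + (1 - K) + (2 - K - eta)` (UFD2 (4)),
`H(Y|v₁ v₂) = 2 - y12 - gY`; `ω = H(s|O v₁ v₂ ta Y) ≤ y12` (SEP2), `third = H(v₁|O v₂ ta Y) ≤ et`,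
`third ≤ qs - ω + eta` (FCO2). -/
def AXI2Stmt : Prop :=
  ∀ d : ℕ, 1 ≤ d → Ek d 2 (fun _ F _ _ => F.qs + KI F + gY F - eta F - F.xi) ∧
    Esk d 2 (fun _ F _ _ => F.et + F.y12 + KI F + gY F - 2 * eta F - F.xi)

/-- (AYY2) As AYY, with `cv` and UFD2 (2). -/
def AYY2Stmt : Prop :=
  ∀ d : ℕ, Ek d 1 (fun J F L sb => F.mh + L + 2 * lm J - 2 * sb - F.rh - F.yh - eta F)

/-- (SUM2) The sum, for all `1 ≤ a ≤ 2`, `a + 4 ≤ Λ`. `a (ALL2, ALS2) + (a - 1) (AIL2, AIS2) +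
(a - 1) ^ 2 AYY2`; `mh ≤ 2 sb`, `rh ≤ 1`; with `m₀ := xi - KI - gY + 2 K`:
`m₀ ≥ qs - eta`, `m₀ ≥ et + y12 - 2 eta`, hence `a m₀ - qs - et - y12 ≥ - (2 - a) - 3 eta`
(take `m₀' = max (qs - eta) (et + y12 - 2 eta) ≤ 1` in place of `m₀`; ETA2, UFC2 (4));
`KL ≤ 2 K - eta`, `KI ≤ K + eta` (DRV2); coefficient of `eta`:
`- a (Λ - a) + (a - 1) (3 + Λ - a) + (a - 1) ^ 2 ≤ 0`, coefficient of `K`:
`2 a + 4 a ^ 2 + (a - 1) (5 + 2 a) + (a - 1) ^ 2 + (3 a - 1) (Λ - a)`; `gO, gY ≥ 0` (PAR2). -/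
def SUM2Stmt : Prop :=
  ∀ (d : ℕ) (a Λ : ℝ), 1 ≤ d → 1 ≤ a → a ≤ 2 → a + 4 ≤ Λ →
    Esk d (7 * a ^ 2 + 4 * a - 5 + (3 * a - 1) * (Λ - a)) (fun J F L sb =>
      DD a * (L + 2 * lm J) - (PP a * sb + (a - 1) * lm J + kh a * F.y01 -
        a * (a * (F.FL.sb - lm J) + Λ * KL F - F.FL.L) -
        (a - 1) * (a * (F.FI.sb - lm J) + Λ * KI F - F.FI.L)))

/-- (ENG2) Energies between times of different lines, in the law `pC` of H32/Dense/Conf (lines 0: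
`w.1.1`, `t, s, t₁` = `w.1.1.1.1, w.1.1.1.2, w.1.1.2`; line 1: `w.1.2`, `r` = `w.1.2.2`; line 2: `w.2`,
`ta` = `w.2.2`). `gp J x y ≤ log 2 + eg J x y`. By (CEN): for `(r, s)` and `(r, t₁)` with
`W = (bv of line 0, bv of line 1)` (given `W`, `r` and `s` are independent; the law of `s` given `W` is
that of `τ` given the line 0: `s` and `(t, line 1)` are independent given the line 0), so the two
self energies are `Gf`. For `(ta, T_O)`: `W = (line 1, line 2, line 0, t, s, t₁)`: `T_O = s + c`,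
`c = ⌊kap t s t₁ (r - t)⌋` is a function of `W, r`, and
`|T_O - T_O'| ≥ |kap| |r - r'| - 1`: self energy `≤ Gf + E log (1 + |kap|⁻¹) + C`,
`|kap t s t₁|⁻¹ ≤ 9 M / max 1 |t₁ - s|` (`kap_swap`, `kap_le`). -/
def ENG2Stmt : Prop :=
  ∃ C : ℝ, 0 ≤ C ∧ ∀ (d J : ℕ) (Ω : Type) [Fintype Ω] (ζ : Type) (p : Ω → ℝ) (Z : Ω → ζ)
    (v : Ω → Fin d → ℤ) (u : Ω → Fin d → ℝ) (τ : Ω → ℤ), IsFam (2 ^ J) p Z v u τ →
    Ex (pC (2 ^ J) p Z v u τ) (fun w => gp J (τ w.1.2.2) (τ w.1.1.1.2) +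
      gp J (τ w.1.2.2) (τ w.1.1.2) + gp J (τ w.2.2) (τ w.1.1.1.2 +
        ct (τ w.1.1.1.1) (τ w.1.1.1.2) (τ w.1.1.2) (τ w.1.2.2))) ≤
      C * (Gf (2 ^ J) p (bv Z v) τ + 1)

/-- (CFG2) Every family has a configuration: the same as in CFG, with the exact entropies (the
deficit of every time given its line is `K = Kf`). `cp`, `cl`, `cv`: `H(v, τ) = L + 1 - K` and
`H(v, τ | point) = L + 1 - K - sb`. `ci`: the line 2 with its times is independent of `t₁, r`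
and of the line 1 given the line 0 and `s`. Energies: (ENG2) for the three cross terms, `Gf` for the
others (`gp J x y ≤ log 2 + ell`). -/
def CFG2Stmt : Prop :=
  ∃ C : ℝ, 0 ≤ C ∧ ∀ (d J : ℕ) (G : Fm d J), ∃ F : Cf d J,
    Okk F G.L G.sb (Kf (2 ^ J) G.p (bv G.Z G.v) G.τ)
      (C * (Gf (2 ^ J) G.p (bv G.Z G.v) G.τ + 1)) ∧ F.y01 = G.Y

end Pool.LQ
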