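import Pool.Agent.H60.LQ.Two

/-!
# LQ0, row ARB3: the arithmetic of level two
-/

set_option autoImplicit false

namespace Pool.LQ

open Finset Real
open Pool.Agent.H49.Ent Pool.Agent.H32.Dense Pool.KTH
open Pool.Agent.H24.KTH (dsv lvv lev cap Yf kp)

namespace ARB3

/-- The sum with the terms which are kept. -/
lemma sum {a Λ L l sb y gO xh e1 LL SL mh KL q y12 gY yh et LI SI xi η KI rh K E δ : ℝ}
    (ha1 : 1 ≤ a) (ha2 : a ≤ 2) (hΛ : a + 4 ≤ Λ) (hE : 0 ≤ E)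
    (h1 : 2 * L + 4 * l - sb - 2 * y - gO - xh - e1 - LL ≤ 2 * K + E)
    (h2 : SL - l - (mh - xh - e1 - y - gO - KL) ≤ 4 * K + E)
    (h3 : 3 * L + 6 * l - 2 * sb - q - y - y12 - gY - yh - et - LI ≤ 5 * K + E)
    (h4 : SI - l - (sb + xh - yh - xi) ≤ E)
    (h5 : q + KI + gY - η - xi ≤ 2 * K + E)
    (h6 : et + y12 + KI + gY - 2 * η - xi ≤ 2 * K + E)
    (h7 : δ = yh - (mh + L + 2 * l - 2 * sb - rh - η - K))
    (h8 : KL + η ≤ 2 * K + E) (h9 : KI - η ≤ K + E)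
    (h10 : -gO ≤ E) (h12 : et + y12 - l ≤ E) (h14 : -η ≤ E)
    (h15 : mh ≤ 2 * sb) (h17 : 0 ≤ e1) :
    (a ^ 2 + 3 * a - 2) * (L + 2 * l) - ((3 * a ^ 2 + 2 * a - 2) * sb + (a - 1) * l +
        (3 * a - a ^ 2 - 1) * y - a * (a * (SL - l) + Λ * KL - LL) -
        (a - 1) * (a * (SI - l) + Λ * KI - LI)) ≤
      (7 * a ^ 2 + 3 * a - 4 + (3 * a - 1) * (Λ - a)) * K -
        (a - 1) ^ 2 * (δ + (l - rh) + gY) + (16 + 4 * (Λ - a)) * E := by
  obtain ⟨b, rfl⟩ : ∃ b : ℝ, a = 1 + b := ⟨a - 1, by ring⟩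
  obtain ⟨lam, rfl⟩ : ∃ lam : ℝ, Λ = lam + (1 + b) := ⟨Λ - (1 + b), by ring⟩
  have hb : 0 ≤ b := by linarith
  have hb1 : b ≤ 1 := by linarith
  have hl : 4 ≤ lam := by linarith
  have hl0 : 0 ≤ lam := by linarith
  subst h7
  have m1 := mul_le_mul_of_nonneg_left h1 (by linarith : (0 : ℝ) ≤ 1 + b)
  have m2 := mul_le_mul_of_nonneg_left h2 (by positivity : (0 : ℝ) ≤ (1 + b) ^ 2)
  have m3 := mul_le_mul_of_nonneg_left h3 hb
  have m4 := mul_le_mul_of_nonneg_left h4 (by positivity : (0 : ℝ) ≤ (1 + b) * b)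
  have m5 := mul_le_mul_of_nonneg_left h5 hb
  have m6 := mul_le_mul_of_nonneg_left h6 (by positivity : (0 : ℝ) ≤ b ^ 2)
  have m8 := mul_le_mul_of_nonneg_left h8 (by positivity : (0 : ℝ) ≤ (1 + b) * lam)
  have m9 := mul_le_mul_of_nonneg_left h9 (by positivity : (0 : ℝ) ≤ b * lam)
  have m10 := mul_le_mul_of_nonneg_left h10 (by positivity : (0 : ℝ) ≤ (1 + b) * b)
  have m12 := mul_le_mul_of_nonneg_left h12 (mul_nonneg hb (by linarith : (0 : ℝ) ≤ 1 - b))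
  have hc : 0 ≤ lam - b - 3 * b ^ 2 := by nlinarith
  have m14 := mul_le_mul_of_nonneg_left h14 hc
  have m15 := mul_le_mul_of_nonneg_left h15 (by linarith : (0 : ℝ) ≤ 1 + 2 * b)
  have m17 := mul_nonneg (by positivity : (0 : ℝ) ≤ (1 + b) * b) h17
  have hW : 0 ≤ (16 + 4 * lam) - (2 + 7 * b + (2 + 2 * b) * lam) := by
    have : 0 ≤ (1 - b) * lam := mul_nonneg (by linarith) hl0
    nlinarith
  have m19 := mul_nonneg hW hE
  linarith

/-- The gain of the lines 1 given `O`. -/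
lemma gainL {a Λ κ θ μ s L l sb y gO xh e1 LL SL mh KL η K E ic eL hL τ : ℝ}
    (ha1 : 1 < a) (hΛ : a + 4 ≤ Λ) (ha2 : a ≤ 2) (hE : 0 ≤ E) (hθ : 0 ≤ θ)
    (hθμ : θ * μ = κ) (hs : s * (a - 1) = 2 * θ) (hs0 : 0 ≤ s) (hs1 : s < 1)
    (h1 : 2 * L + 4 * l - sb - 2 * y - gO - xh - e1 - LL ≤ 2 * K + E)
    (h2 : SL - l - (mh - xh - e1 - y - gO - KL) ≤ 4 * K + E)
    (h8 : KL + η ≤ 2 * K + E) (h10 : -gO ≤ E) (h14 : -η ≤ E)
    (h15 : mh ≤ 2 * sb) (h17 : 0 ≤ e1)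
    (h18 : ic - (2 * sb + xh - 2 * L - 4 * l + y) - η ≤ 4 * K + E)
    (h20 : LL ≤ a * (SL - l) - κ * (l - eL) - (a - 1) * hL + Λ * KL + E)
    (h21 : 0 ≤ hL) (h22 : μ / 2 * eL - (τ / 2 + ic + K) - E ≤ hL) :
    κ * l - θ * (τ + 2 * K) - s * ((4 * a - 1) * sb - 2 * a * (L + 2 * l) + y +
      (8 * a - 2 + 2 * (Λ - a)) * K) - (2 + 2 * θ + 10 + 3 * (Λ - a)) * E ≤
      (1 - s) * (a * (SL - l) + Λ * KL - LL) := by
  obtain ⟨lam, rfl⟩ : ∃ lam : ℝ, Λ = lam + a := ⟨Λ - a, by ring⟩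
  have hl0 : 4 ≤ lam := by linarith
  have hs2 : 2 * θ ≤ a - 1 := by nlinarith
  -- (A)
  have A1 := mul_le_mul_of_nonneg_left h22 (by linarith : (0 : ℝ) ≤ 2 * θ)
  have A2 : 0 ≤ (a - 1 - 2 * θ) * hL := mul_nonneg (by linarith) h21
  have A3 : 2 * θ * (μ / 2 * eL - (τ / 2 + ic + K) - E) =
      κ * eL - θ * (τ + 2 * ic + 2 * K) - 2 * θ * E := by
    rw [← hθμ]; ring
  have A : κ * l - θ * (τ + 2 * ic + 2 * K) - (1 + 2 * θ) * E ≤
      a * (SL - l) + (lam + a) * KL - LL := by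
    rw [A3] at A1
    linarith
  -- (B)
  have B1 := mul_le_mul_of_nonneg_left h2 (by linarith : (0 : ℝ) ≤ a)
  have B2 := mul_le_mul_of_nonneg_left h8 (by linarith : (0 : ℝ) ≤ lam)
  have B3 := mul_le_mul_of_nonneg_left h18 (by linarith : (0 : ℝ) ≤ a - 1)
  have B4 := mul_le_mul_of_nonneg_left h10 (by linarith : (0 : ℝ) ≤ a - 1)
  have B5 := mul_le_mul_of_nonneg_left h14 (by linarith : (0 : ℝ) ≤ lam - (a - 1))
  have B6 := mul_le_mul_of_nonneg_left h15 (by linarith : (0 : ℝ) ≤ a)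
  have B7 : 0 ≤ (a - 1) * e1 := mul_nonneg (by linarith) h17
  have B8 : 0 ≤ (2 - a) * E := mul_nonneg (by linarith) hE
  have B9 : 0 ≤ lam * E := mul_nonneg (by linarith) hE
  have B : (a - 1) * ic ≤ ((4 * a - 1) * sb - 2 * a * (L + 2 * l) + y +
      (8 * a - 2 + 2 * lam) * K) - (a * (SL - l) + (lam + a) * KL - LL) +
      (10 + 3 * lam) * E := by
    nlinarith
  have C1 := mul_le_mul_of_nonneg_left B hs0
  have C2 : s * ((a - 1) * ic) = 2 * θ * ic := by rw [← mul_assoc, hs]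
  have C3 : 0 ≤ (1 - s) * ((10 + 3 * lam) * E) := by
    have : 0 ≤ 1 - s := by linarith
    positivity
  rw [C2] at C1
  have e : lam + a - a = lam := by ring
  rw [e]
  nlinarith

/-- The gain of the lines 2 given `Y`. -/
lemma gainI {a Λ κ θ μ L l sb y mh q y12 gY yh et LI SI η KI rh K E iy eI hI τ δ : ℝ}
    (ha1 : 1 < a) (hE : 0 ≤ E) (hθ : 0 ≤ θ) (hθa : θ ≤ a - 1)
    (hθμ : θ * μ = κ) (h7 : δ = yh - (mh + L + 2 * l - 2 * sb - rh - η - K))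
    (h12 : et + y12 - l ≤ E) (h14 : -η ≤ E)
    (h15 : mh ≤ 2 * sb) (h16 : q ≤ l)
    (h19 : iy - (yh - 2 * L - 6 * l + 2 * sb + q + y + y12 + et + gY) ≤ 5 * K + E)
    (h20 : LI ≤ a * (SI - l) - κ * (l - eI) - (a - 1) * hI + Λ * KI + E)
    (h21 : 0 ≤ hI) (h22 : μ * eI - (τ + iy) - E ≤ hI) :
    κ * l - θ * (τ + 4 * K + (2 * sb - L - 3 * l + y)) - θ * (δ + (l - rh) + gY) -
      (1 + 4 * θ) * E ≤ a * (SI - l) + Λ * KI - LI := by
  subst h7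
  have A1 := mul_le_mul_of_nonneg_left h22 hθ
  have A2 : 0 ≤ (a - 1 - θ) * hI := mul_nonneg (by linarith) h21
  have A3 : θ * (μ * eI - (τ + iy) - E) = κ * eI - θ * (τ + iy) - θ * E := by
    rw [← hθμ]; ring
  rw [A3] at A1
  have B1 := mul_le_mul_of_nonneg_left h19 hθ
  have B2 := mul_le_mul_of_nonneg_left h12 hθ
  have B3 := mul_le_mul_of_nonneg_left h14 hθ
  have B4 := mul_le_mul_of_nonneg_left h15 hθ
  have B5 := mul_le_mul_of_nonneg_left h16 hθ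
  nlinarith

lemma kp_nonneg {a : ℝ} (ha1 : 1 < a) (ha2 : a ≤ 2) : 0 ≤ kp a := by
  unfold kp
  refine div_nonneg ?_ ?_ <;> nlinarith

end ARB3

open ARB3

theorem arb3 : ARB3Stmt := by
  intro a Λ μ ha1 ha2 hΛ hμ
  have hκ := kp_nonneg ha1 ha2
  have ha0 : 0 < a - 1 := by linarith
  have hμ0 : 0 < μ := lt_of_le_of_lt (by positivity) hμ
  set κ := kp a with hκd
  have hs0 : 0 ≤ ss a μ := by unfold ss; positivity
  have hs1 : ss a μ < 1 := by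
    unfold ss
    rw [div_lt_one (by positivity)]
    rw [div_lt_iff₀ ha0] at hμ
    exact hμ
  have hs2 : 0 < 1 - ss a μ := by linarith
  have hθ : 0 ≤ κ / μ := by positivity
  have hθμ : κ / μ * μ = κ := by field_simp
  have hs : ss a μ * (a - 1) = 2 * (κ / μ) := by
    unfold ss
    rw [hκd]
    field_simp
  have hθa : κ / μ ≤ a - 1 := by nlinarith
  refine ⟨16 + 4 * (Λ - a) + a * ((2 + 2 * (κ / μ) + 10 + 3 * (Λ - a)) / (1 - ss a μ)) +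
    (a - 1) * (1 + 4 * (κ / μ)) + 2 * (a - 1) ^ 2 + 2, ?_, ?_⟩
  · have : 0 ≤ Λ - a := by linarith
    positivity
  intro L l sb y gO xh e1 LL SL mh KL q y12 gY yh et LI SI xi η KI rh K E ic iy eL hL eI hI τ
    hE hK hl h1 h2 h3 h4 h5 h6 h7 h8 h9 h10 h11 h12 h14 h15 h16 hq h17 h18 h19 h20 h21 h22
    h23 h24 h25
  have S := sum (δ := yh - (mh + L + 2 * l - 2 * sb - rh - η - K)) ha1.le ha2 hΛ hE h1 h2 h3 h4
    h5 h6 rfl h8 h9 h10 h12 h14 h15 h17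
  have gL := gainL ha1 hΛ ha2 hE hθ hθμ hs hs0 hs1 h1 h2 h8 h10 h14 h15 h17 h18 h20 h21 h22
  have gI := gainI (δ := yh - (mh + L + 2 * l - 2 * sb - rh - η - K)) ha1 hE hθ hθa hθμ rfl h12
    h14 h15 hq h19 h23 h24 h25
  set δ := yh - (mh + L + 2 * l - 2 * sb - rh - η - K) with hδ
  set cL := a * (SL - l) + Λ * KL - LL with hcL
  set cI := a * (SI - l) + Λ * KI - LI with hcI
  have hδ0 : -E ≤ δ := by rw [hδ]; linarith
  -- the first gain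
  have gL' : cLo a Λ μ L l sb y K τ - (2 + 2 * (κ / μ) + 10 + 3 * (Λ - a)) / (1 - ss a μ) * E ≤
      cL := by
    have e1 : cLo a Λ μ L l sb y K τ - (2 + 2 * (κ / μ) + 10 + 3 * (Λ - a)) / (1 - ss a μ) * E =
        (kp a * l - kp a / μ * (τ + 2 * K) - ss a μ * XX a Λ L l sb y K -
          (2 + 2 * (κ / μ) + 10 + 3 * (Λ - a)) * E) / (1 - ss a μ) := by
      unfold cLo
      rw [sub_div _ ((2 + 2 * (κ / μ) + 10 + 3 * (Λ - a)) * E)]
      ring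
    rw [e1, div_le_iff₀ hs2, mul_comm cL]
    unfold XX
    rw [← hκd]
    linarith
  have gL'' := mul_le_mul_of_nonneg_left gL' (by linarith : (0 : ℝ) ≤ a)
  have gI' := mul_le_mul_of_nonneg_left gI ha0.le
  have k1 : (a - 1) * (κ / μ * (δ + (l - rh) + gY)) ≤
      (a - 1) ^ 2 * (δ + (l - rh) + gY) + 2 * (a - 1) ^ 2 * E := by
    have i1 : 0 ≤ (a - 1) * (a - 1 - κ / μ) * (δ + (l - rh) + gY + 2 * E) :=
      mul_nonneg (mul_nonneg ha0.le (by linarith)) (by linarith)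
    have i2 : 0 ≤ (a - 1) * (κ / μ) * (2 * E) := by positivity
    nlinarith
  unfold Two DD PP kh cIo
  rw [← hκd]
  nlinarith

end Pool.LQ
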