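import Pool.Agent.H60.LQ.Cfg

/-!
# LQ0: the second level with explicit coefficients

THEOREM (LQ0). For `d ≥ 7`, `α > 1` the root of `α ^ 3 = 4 α - 2` and every
`q > 1 + α / (d + 0.279 + 0.05 / d)`: `Loss d q 0 C`, i.e. the inequality of Q1 in `ℝ ^ (d + 1)`
without loss. It contains LQ1 (slope `α`, `κ = .2092`) and KTH (`dim ≥ 1 + (n - .72) / 1.6752`).

Units in the docstrings: `lm J = 1`, `κ = kp a`, `m = d`. Errors: `C (G + 1) + ε lm`.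
The `w` of level one plus lives on an extension `(Ω', q, pr)` of the sample space, as in `Fm.Spr`.
-/

set_option autoImplicit false

namespace Pool.LQ

open Finset Real
open Pool.Agent.H49.Ent Pool.Agent.H32.Dense Pool.KTH
open Pool.Agent.H24.KTH (dsv lvv lev cap Yf kp CAPStmt ONCStmt INFStmt)

variable {d J : ℕ}

/-! ### Energies, level one plus -/

/-- (NRG3) Mean energies after conditioning on a variable `w` with few values.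
Let `μ` be the law of `τ` given `b`, `G_b` its energy, `π_k = P(w = k | b)`. The energy of `τ` given
`b, w = k` is `E_k ≤ min (lm) (G_b / π_k ^ 2)` (`0 ≤ ell ≤ lm`), so
`π_k E_k ≤ min (π_k lm) (G_b / π_k) ≤ (lm G_b) ^ (1/2) ≤ ε' lm + G_b / (4 ε')`. Sum over `k ≤ N` and
take the mean over `b`; `ε' = ε / (N + 1)`. (`dbl p (b, w) (ω, ω') = p ω p ω' / law (b, w)`.) -/
def NRG3Stmt : Prop :=
  ∀ (N : ℕ) (ε : ℝ), 0 < ε → ∃ C : ℝ, 0 ≤ C ∧ ∀ (J : ℕ) (Ω : Type) [Fintype Ω] (β : Type)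
    (p : Ω → ℝ) (b : Ω → β) (w : Ω → ℕ) (τ : Ω → ℤ), (∀ ω, 0 ≤ p ω) → ∑ ω, p ω = 1 →
    (∀ ω, w ω ≤ N) → (∀ ω, 0 < p ω → 0 ≤ τ ω ∧ τ ω < 2 ^ J) →
    Gf (2 ^ J) p (fun ω => (b ω, w ω)) τ ≤ C * (Gf (2 ^ J) p b τ + 1) + ε * lm J

/-- Level one plus, with the energy of the times as an error term. -/
def PlusG (d : ℕ) (a Λ k : ℝ) : Prop :=
  ∀ ε : ℝ, 0 < ε → ∃ N : ℕ, 0 < N ∧ ∃ B₀ B₁ : ℝ, 0 ≤ B₁ ∧
  ∀ (J : ℕ) (Ω : Type) [Fintype Ω] (ζ : Type) (p : Ω → ℝ) (Z : Ω → ζ) (v : Ω → Fin d → ℤ)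
    (u : Ω → Fin d → ℝ) (τ : Ω → ℤ), IsFam (2 ^ J) p Z v u τ →
    ∃ w : Ω → ℕ, (∀ ω, w ω ≤ N) ∧
    CH p v Z ≤ a * (Sb (2 ^ J) p Z v u τ - J * Real.log 2) -
      k * ((1 - Ex p (fun ω => (w ω : ℝ)) / N) * (J * Real.log 2)) -
      (a - 1) * CH p (fun ω => cap J (lev J N (w ω)) (v ω)) (fun ω => (w ω, Z ω)) +
      Λ * Kf (2 ^ J) p (bv Z v) τ + B₀ + B₁ * Gf (2 ^ J) p (bv Z v) τ + ε * (J * Real.log 2)

/-- (LPG) Level one plus from the gain: `GapG` for the restricted family of (RDS)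
(`Z⁺ = (cap, w, Z)`, levels `N` with `k / N ≤ ε / 4`), energies by (NRG3) (`(v, Z⁺)` is equivalent to
`((v, Z), w)`: `Gf_congr`), `CH v Z ≤ CH cap (w, Z) + CH v Z⁺ + C` (CAP). For `J < J₀` (of RDS) take
`w = 0` and `B₀` large (`Sb ≥ 0`, `CH v Z ≤ d log (2 · 2 ^ J + 1)`, the cap at the level 0 has three
values). -/
def LPGStmt : Prop :=
  ∀ (d : ℕ) (a Λ k : ℝ), 1 ≤ a → 0 ≤ Λ → 0 ≤ k → GapG d a Λ k → PlusG d a Λ k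

/-- Level one plus for all families; the level is a function on an extension of the sample space. -/
def PlusA (d : ℕ) (a Λ k : ℝ) : Prop :=
  ∀ ε : ℝ, 0 < ε → ∃ N : ℕ, 0 < N ∧ ∃ B₀ : ℝ,
  ∀ (J : ℕ) (Ω : Type) [Fintype Ω] (ζ : Type) (p : Ω → ℝ) (Z : Ω → ζ) (v : Ω → Fin d → ℤ)
    (u : Ω → Fin d → ℝ) (τ : Ω → ℤ), IsFam (2 ^ J) p Z v u τ →
    ∃ (Ω' : Type) (_ : Fintype Ω') (q : Ω' → ℝ) (pr : Ω' → Ω) (w : Ω' → ℕ),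
    (∀ ω, 0 ≤ q ω) ∧ Marg q p pr ∧ (∀ ω, w ω ≤ N) ∧
    CH p v Z ≤ a * (Sb (2 ^ J) p Z v u τ - J * Real.log 2) -
      k * ((1 - Ex q (fun ω => (w ω : ℝ)) / N) * (J * Real.log 2)) -
      (a - 1) * CH q (fun ω => cap J (lev J N (w ω)) (v (pr ω))) (fun ω => (w ω, Z (pr ω))) +
      Λ * Kf (2 ^ J) p (bv Z v) τ + B₀ + ε * (J * Real.log 2)

/-- (SEC3) A random section, with the law of two copies. The same space `Ω'` and the same `Z` as in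
the proof of `SEC` (H40/KTH/SEC.lean): given `(v, Z)`, `ω` has the law `p (· | l)`. -/
def SEC3Stmt : Prop :=
  ∀ (Ω : Type) [Fintype Ω] (p : Ω → ℝ), (∀ ω, 0 ≤ p ω) → ∑ ω, p ω = 1 → ∀ (S T : Type)
    (v : Ω → S) (l : Ω → T), Det p l v →
    ∃ (Ω' : Type) (_ : Fintype Ω') (p' : Ω' → ℝ) (ζ : Type) (Z : Ω' → ζ) (pr : Ω' → Ω),
      (∀ w, 0 ≤ p' w) ∧ Marg p' p pr ∧
      Det p' (fun w => (v (pr w), Z w)) (fun w => l (pr w)) ∧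
      CH p' (fun w => v (pr w)) Z = H p v ∧
      (∀ (U : Type) (X : Ω → U), CH p X l ≤ CH p' (fun w => X (pr w)) (fun w => (v (pr w), Z w))) ∧
      ∀ f : Ω → Ω → ℝ, Ex (dbl p' (fun w => (v (pr w), Z w))) (fun x => f (pr x.1) (pr x.2)) =
        Ex (dbl p l) (fun x => f x.1 x.2)

/-- (LPA) Localisation of level one plus; model: H53/LQ/LOC.lean.
LOCAL STEP (scale `n`, `M' = 2 ^ n`, `Q = τ / M'`, `Z₀ = (Z, Q)`, `v' = ⌊v / 2 ^ (J - n)⌋`): instead of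
the low digits `R` of `v` use a random section: (SEC3) with `v := (v', Z₀)` and `l := (v, Z₀)`,
`Z' := (Z₀, Z_sec)`. Then `u'` is a function of `(v', Z')`; `H(v'|Z') ≥ H(v'|Z₀)` (from
`CH (v', Z₀) Z_sec = H (v', Z₀)`), `H(τ'|v', Z') ≥ H(τ|v, Z₀)`, `Gf' = Gf` of `τ % M'` given `(v, Z₀)`,
`Sb' ≤ H(τ|Z₀) + Sf + 2 d`. `PlusG` gives a level `w'` of scale `n`, and
`H(cap v'|w', Z') ≥ H(cap v'|w', Z₀) - log (N + 1)` (`I(cap; Z_sec|w', Z₀) ≤ I(v', w'; Z_sec|Z₀) ≤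
log (N + 1)`). Note `cap n (lev n N w') v' = cap J (lev n N w') v`.
SUM over the depths `j = J - n` (extension: the disjoint union of the extensions of the pieces). For a
grid `N'` (any number with `k / N'` small) put `w = ⌊lev n N w' · N' / J⌋ ≤ N'`: then
`lev J N' w ≤ lev n N w'` (coarser) and `w / N' ≥ lev n N w' / J - 1 / N'`, so
`- k (1 - w' / N) n log 2 ≤ - k (1 - w / N') J log 2 + k j log 2 + k (1 + J / N')`. And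
`H(cap_w v|w, Z) ≤ H(cap_w v|w, Z, Q, j) + H(Q, j|Z)`,
`H_j(cap_w v|w, Z, Q) ≤ H_j(cap v'|w', Z, Q) + log (N + 1)`. The coefficient of `H(Q, j|Z)` is
`1 - a + (a - 1) = 0`; that of `w₀ = Ex j` is `(a + d + k) log 2 +` small. -/
def LPAStmt : Prop :=
  ∀ (d : ℕ) (a Λ k : ℝ), 1 ≤ a → 0 ≤ Λ → 0 ≤ k → PlusG d a Λ k → ∀ ε : ℝ, 0 < ε →
    PlusA d a (max Λ ((1 + ε) * (a + d + k))) k

/-- (PUR3) The gain for exponents near `α`. (ITR) gives `a`, `Λ = 1.01 (a + d)`, (STP):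
`GapG d (nx a) (lp a Λ) (kp a)`; `nx a ≤ a` (`a ^ 3 - 4 a + 2 ≥ 0`) and
`nx a (Sb - lm) ≤ a (Sb - lm) + (a - nx a) K` since `Sb ≥ lm - K` (SBP; the entropy of the time);
`lp a Λ + a - nx a ≤ a + d`; `Kf ≥ 0`. -/
def PUR3Stmt : Prop :=
  ∀ (d : ℕ), 7 ≤ d → ∀ α : ℝ, 1 < α → α ^ 3 = 4 * α - 2 → ∀ x : ℝ, α < x →
    ∃ a : ℝ, α < a ∧ a < x ∧ a ≤ 2 ∧ GapG d a (a + d) (kp a)

/-! ### The configuration, spreads -/

/-- (CFG3) The configuration of (CFG) and (CFG2) is the same (`CFG80.cfg G`): `CFG280.okk`,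
`CFG80.y01_eq`, `CFG80.spr`; the energy of `s` given the line 0 is that of the family. -/
def CFG3Stmt : Prop :=
  ∃ C : ℝ, 0 ≤ C ∧ ∀ (d J : ℕ) (G : Fm d J), ∃ F : Cf d J,
    Okk F G.L G.sb (Kf (2 ^ J) G.p (bv G.Z G.v) G.τ)
      (C * (Gf (2 ^ J) G.p (bv G.Z G.v) G.τ + 1)) ∧ F.y01 = G.Y ∧
    Gf (2 ^ J) F.q (bv F.Z F.v₀) F.s ≤ C * (Gf (2 ^ J) G.p (bv G.Z G.v) G.τ + 1) ∧
    ∀ (N : ℕ) (μ τ : ℝ), G.Spr N μ τ → F.Spr N μ τ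

/-- (TWO3) Two conditionally independent times, explicit; as (TWO) (H71/KTH/TWO.lean) with
`H(s | v, w, Z) ≥ 1 - K - log (N + 1)`, `I(cap v; s, s' | w, Z) ≤ 2 K + 2 log (N + 1)`, and the mean
energy of `s` given `(v, w, Z)` by (NRG3). -/
def TWO3Stmt : Prop :=
  ∀ (d N : ℕ), 0 < N → ∀ ε : ℝ, 0 < ε → ∃ C : ℝ, 0 ≤ C ∧ ∀ (J : ℕ) (Ω : Type) [Fintype Ω]
    (ζ : Type) (p : Ω → ℝ) (Z : Ω → ζ) (v : Ω → Fin d → ℤ) (u : Ω → Fin d → ℝ) (s : Ω → ℤ)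
    (w : Ω → ℕ), IsFam (2 ^ J) p Z v u s → (∀ ω, w ω ≤ N) →
    CH p (fun ω => cap J (lev J N (w ω)) (v ω)) (fun ω => (w ω, Z ω)) ≤
      2 * CH p (fun ω => cap J (lev J N (w ω)) (rd (pos (2 ^ J) (u ω) (v ω) (s ω))))
        (fun ω => (s ω / 2 ^ (J - lev J N (w ω)), w ω, Z ω)) +
      2 * Kf (2 ^ J) p (bv Z v) s + C * (Gf (2 ^ J) p (bv Z v) s + 1) + ε * lm J

/-- (SPL3) The lines 1 given `O` are spread, explicit; as (SPL) (H23/KTH/SPL.lean): (TWO3) for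
`v₀, s` on the extension (`Kf ≤ K` by `cs`; the energy and `Kf` are transported by `Marg`), (ONC) with
`G = F.big F.c` (CGP2). So `μ el - τ ≤ H(cap v₀|w) ≤ 2 (H(cap v₁|w O) + ic) + 2 K + ..`. -/
def SPL3Stmt : Prop :=
  ∀ d : ℕ, 1 ≤ d → ∀ N : ℕ, 1 ≤ N → ∀ ε : ℝ, 0 < ε → ∃ C : ℝ, 0 ≤ C ∧ ∀ (J : ℕ) (F : Cf d J)
    (L sb K G μ τ : ℝ), Okk F L sb K G → Gf (2 ^ J) F.q (bv F.Z F.v₀) F.s ≤ G → F.Spr N μ τ →
    F.FL.Spr N (μ / 2) (τ / 2 + F.ic + K + C * (G + 1) + ε * lm J)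

/-- (SPI3) The lines 2 given `Y` are spread: (INF), as in H86/KTH/SPI.lean (no `Ok` needed). -/
def SPI3Stmt : Prop :=
  ∀ (d N : ℕ), 1 ≤ N → ∃ C : ℝ, 0 ≤ C ∧ ∀ (J : ℕ) (F : Cf d J) (μ τ : ℝ), F.Spr N μ τ →
    F.FI.Spr N μ (τ + F.iy + C)

/-! ### Two more inequalities -/

/-- (DIR3) `O - C` is parallel to the line 1: first half of (DIR), as (DIR2). -/
def DIR3Stmt : Prop :=
  ∀ d : ℕ, Eg d (fun _ F => CH F.q F.v₁ (fun w => (F.O w, F.C w, F.Z w)))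

/-- (ACO3) `I(C; O)`: `H(C, O) ≥ H(v₁, C) + H(c|v₁ C) - H(v₁|O C)` (`c = T_O - s`), (DIR3);
`H(v₁, C) ≥ H(v₀, v₁, s) - H(v₀|v₁ C)`, the last is `≤ K` by (FCK2) (`v = v₁`, `v' = v₀`, `r = s`,
`e = K`, `cs`); `H(v₀, v₁, s) ≥ (2 L + 2 - sb - y01 - 2 K) + (1 - K)` (TLN2 (1), `cs`);
`H(c|v₁ C) ≥ H(c|v₀ v₁ t s) = 1 - eta`. Then `ic ≤ sb + xh - H(C, O)`. -/
def ACO3Stmt : Prop :=
  ∀ d : ℕ, 1 ≤ d → Esk d 4 (fun J F L sb =>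
    F.ic - (2 * sb + F.xh - 2 * L - 4 * lm J + F.y01) - eta F)

/-- (AIL3) `I(v₂; Y) = L + yh - H(v₂, Y)`, `H(v₂, Y) = H(v₁ v₂) + H(Y|v₁ v₂) - et` (at least), (TLN2)
(2), definition of `gY`. -/
def AIL3Stmt : Prop :=
  ∀ d : ℕ, 1 ≤ d → Esk d 5 (fun J F L sb =>
    F.iy - (F.yh - 2 * L - 6 * lm J + 2 * sb + F.qs + F.y01 + F.y12 + F.et + gY F))

/-! ### Level two -/

/-- The bound for `(a - 1) I(C; O)`, without the term `- cL`. -/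
noncomputable def XX (a Λ L l sb y K : ℝ) : ℝ :=
  (4 * a - 1) * sb - 2 * a * (L + 2 * l) + y + (8 * a - 2 + 2 * (Λ - a)) * K

/-- The constant `s = 2 κ / (μ (a - 1)) < 1`. -/
noncomputable def ss (a μ : ℝ) : ℝ := 2 * kp a / (μ * (a - 1))

/-- The lower bound for the gain of the lines 1 given `O`. -/
noncomputable def cLo (a Λ μ L l sb y K τ : ℝ) : ℝ :=
  (kp a * l - kp a / μ * (τ + 2 * K) - ss a μ * XX a Λ L l sb y K) / (1 - ss a μ)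

/-- The lower bound for the gain of the lines 2 given `Y`. -/
noncomputable def cIo (a μ L l sb y K τ : ℝ) : ℝ :=
  kp a * l - kp a / μ * (τ + 4 * K + (2 * sb - L - 3 * l + y))

/-- The inequality of level two, with the error `E`. -/
def Two (a Λ μ L l sb y K τ E : ℝ) : Prop :=
  DD a * (L + 2 * l) ≤ PP a * sb + (a - 1) * l + kh a * y - a * cLo a Λ μ L l sb y K τ -
    (a - 1) * cIo a μ L l sb y K τ + (7 * a ^ 2 + 3 * a - 4 + (3 * a - 1) * (Λ - a)) * K + E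

/-- (ARB3) The arithmetic of level two (linear; units: `l = lm`; `SL, SI` are point entropies). With
`lam = Λ - a`, `s = ss a μ`, `cL := a (SL - l) + Λ KL - LL`, `cI := a (SI - l) + Λ KI - LI`; all up to
`C E`:
(1) `hL ≥ 0`, `hL ≥ (μ / 2) eL - (τ / 2 + ic + K)` and `2 κ / μ ≤ a - 1`, so
`(a - 1) hL ≥ (2 κ / μ) hL` and `cL ≥ κ (l - eL) + (a - 1) hL ≥ κ l - (κ / μ) (τ + 2 ic + 2 K)`;
same `cI ≥ κ l - (κ / μ) (τ + iy)`.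
(2) ALL, ALS, KL: `(a - 1) xh ≤ a mh - 2 L - 4 l + sb + (2 - a) y + (4 a + 2 + 2 lam) K - lam η - cL`
(`gO, e1 ≥ 0`), so `(a - 1) ic ≤ XX - cL` (`mh ≤ 2 sb`, `lam ≥ a - 1`, `- η ≤ E`). With (1):
`(1 - s) cL ≥ κ l - (κ / μ) (τ + 2 K) - s XX`, i.e. `cL ≥ cLo`.
(3) `δ := yh - (mh + L + 2 l - 2 sb - rh - η - K) ≥ - E`,
`iy ≤ 2 sb - L - 3 l + y + 4 K + gY + (l - rh) + δ` (`q ≤ l`, `et + y12 ≤ l`, `mh ≤ 2 sb`), i.e.
`cI ≥ cIo - (κ / μ) (gY + (l - rh) + δ)`.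
(4) The sum (as `SUM2.arith`, H60/LQ/SUM2.lean), keeping `- (a - 1) ^ 2 (δ + (l - rh) + gY)`;
`(a - 1) κ / μ ≤ (a - 1) ^ 2`. -/
def ARB3Stmt : Prop :=
  ∀ a Λ μ : ℝ, 1 < a → a ≤ 2 → a + 4 ≤ Λ → 2 * kp a / (a - 1) < μ → ∃ C : ℝ, 0 ≤ C ∧
    ∀ L l sb y gO xh e1 LL SL mh KL q y12 gY yh et LI SI xi η KI rh K E ic iy eL hL eI hI τ : ℝ,
    0 ≤ E → 0 ≤ K → 0 ≤ l →
    2 * L + 4 * l - sb - 2 * y - gO - xh - e1 - LL ≤ 2 * K + E →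
    SL - l - (mh - xh - e1 - y - gO - KL) ≤ 4 * K + E →
    3 * L + 6 * l - 2 * sb - q - y - y12 - gY - yh - et - LI ≤ 5 * K + E →
    SI - l - (sb + xh - yh - xi) ≤ E →
    q + KI + gY - η - xi ≤ 2 * K + E →
    et + y12 + KI + gY - 2 * η - xi ≤ 2 * K + E →
    mh + L + 2 * l - 2 * sb - rh - yh - η ≤ K + E →
    KL + η ≤ 2 * K + E → KI - η ≤ K + E →
    -gO ≤ E → -gY ≤ E → et + y12 - l ≤ E → -η ≤ E →
    mh ≤ 2 * sb → rh ≤ l → q ≤ l → 0 ≤ e1 →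
    ic - (2 * sb + xh - 2 * L - 4 * l + y) - η ≤ 4 * K + E →
    iy - (yh - 2 * L - 6 * l + 2 * sb + q + y + y12 + et + gY) ≤ 5 * K + E →
    LL ≤ a * (SL - l) - kp a * (l - eL) - (a - 1) * hL + Λ * KL + E →
    0 ≤ hL → μ / 2 * eL - (τ / 2 + ic + K) - E ≤ hL →
    LI ≤ a * (SI - l) - kp a * (l - eI) - (a - 1) * hI + Λ * KI + E →
    0 ≤ hI → μ * eI - (τ + iy) - E ≤ hI →
    Two a Λ μ L l sb y K τ (C * E)

/-- (LVB3) Level two, for spread families. (CFG3) for `G`; `PlusA` (with the `N` for a smaller `ε`)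
for `F.FL`, `F.FI` (`Kf = KL, KI`, as in H60/LQ/STP.lean); (SPL3), (SPI3) applied to the extensions
`(Ω', q, pr, w)` of `PlusA`: `eL = Ex w / N · lm`, `hL = CH q cap (w, Z)`; the inequalities of
H60/LQ/Cfg.lean, TRV of KTH; (ARB3). -/
def LVB3Stmt : Prop :=
  ∀ (d : ℕ) (a Λ μ : ℝ), 1 ≤ d → 1 < a → a ≤ 2 → a + 4 ≤ Λ → 2 * kp a / (a - 1) < μ →
    PlusA d a Λ (kp a) → ∀ ε : ℝ, 0 < ε → ∃ N : ℕ, 1 ≤ N ∧ ∃ B₀ B₁ : ℝ, 0 ≤ B₁ ∧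
    ∀ (J : ℕ) (G : Fm d J) (τ : ℝ), G.Spr N μ τ →
    Two a Λ μ G.L (lm J) G.sb G.Y (Kf (2 ^ J) G.p (bv G.Z G.v) G.τ) τ
      (B₀ + B₁ * Gf (2 ^ J) G.p (bv G.Z G.v) G.τ + ε * lm J)

/-- The constant: `0.279 + 0.05 / m`. -/
noncomputable def cc (m : ℝ) : ℝ := 0.279 + 0.05 / m

/-- (NUM3) The numbers. If `K l ≥ L / m` (`l = 1`: `K ≥ L / m`) the claim follows from `sb ≥ l - K`:
`a (sb - l) + (a + m + c) K ≥ (m + c) K`. Otherwise put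
`X := a (sb - l) + (a + m + c) K - (1 + c / m) L`. Insert the bounds for `y`, `τ` and
`sb = l + ((1 + c / m) L - (a + m + c) K + X) / a`: (right side) - (left side)
`≤ (positive) X + (L / m - K) f₁ + K f₂ + C E`: the function is linear in `(l, L / m, K)` and it vanishes
at `(1, 0, 0)` (`PP + (a - 1) + kh = 2 DD`; `τ = m`, `XX = 0`, `cLo = cIo = 0`); `f₁` is its value at
`(1, 1, 0)` (`sb = 1 + (m + c) / a`), `≤ - .0016` (use `PP ≤ a DD`, i.e. `a ^ 3 - 4 a + 2 ≥ 0`), and `f₂`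
the value at `(1, 1, 1)` (`sb = 0`), `≤ - 2`. `Λ = 1.01 (a + m + κ)`. Python: m = 7 .. 10^5. -/
def NUM3Stmt : Prop :=
  ∀ (m : ℕ) (a Λ : ℝ), 7 ≤ m → 1.67513 ≤ a → a ≤ 1.6752 → 0 ≤ a ^ 3 - 4 * a + 2 →
    Λ = 1.01 * (a + m + kp a) → ∃ C : ℝ, 0 ≤ C ∧
    ∀ L l sb y K τ E : ℝ, 0 ≤ l → 0 ≤ K → 0 ≤ E → 0 ≤ L → L ≤ m * l + E → y ≤ l - L / m + E →
    τ ≤ m * l - L + E → l - K ≤ sb → Two a Λ m L l sb y K τ E →
    (1 + cc m / m) * L ≤ a * (sb - l) + (a + m + cc m) * K + C * E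

/-- (LVO3) The second level for all families. Let `a' = a m / (m + c)`, `c = cc m`. (RDS) for the
family (`N₁` large): `Z⁺`, `e0 = Ex w / N₁`, `h = CH cap (w, Z)`: `L ≤ h + L⁺ + C`,
`L⁺ ≤ m (1 - e0) lm + C` (CAP), `Y⁺ ≤ e0 lm + ε`, `Sb⁺ + h ≤ Sb + ε`, `K⁺ ≤ K + C`, `Gf⁺` by (NRG3).
`G⁺ : Fm m J` is spread: (KSP) of KTH with `x lm = m lm - L⁺` (`μ = m`; `2 kp a / (a - 1) ≤ 1`).
(LVB3), (NUM3) with `y = Y⁺ ≤ e0 lm + ε ≤ lm - L⁺ / m + ..` give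
`(1 + c / m) L⁺ ≤ a (Sb⁺ - lm) + (a + m + c) K⁺ + ..`; add `(1 + c / m) h ≤ a h`. Divide by
`1 + c / m`: `(a + m + c) / (1 + c / m) = a' + m`. -/
def LVO3Stmt : Prop :=
  ∀ (m : ℕ) (a : ℝ), 7 ≤ m → 1.67513 ≤ a → a ≤ 1.6752 → 0 ≤ a ^ 3 - 4 * a + 2 →
    PlusA m a (1.01 * (a + m + kp a)) (kp a) →
    AKSG m (a * m / (m + cc m)) (a * m / (m + cc m) + m)

/-- (FIN3) The theorem. (PUR3) with `x` close to `α`; (LPG), (LPA) (`ε = 1/100`), (LVO3); `AKSG` is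
`GapG` with `k = 0`, so (HCB) and (DCS) give `DenseCount m a'`; then as (FIN). -/
def FIN3Stmt : Prop :=
  ∀ (d : ℕ), 7 ≤ d → ∀ α : ℝ, 1 < α → α ^ 3 = 4 * α - 2 → ∀ q : ℝ,
    1 + α / (d + 0.279 + 0.05 / d) < q → ∃ C : ℝ, Pool.Agent.H53.Kak.Loss d q 0 C

end Pool.LQ
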