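import Pool.Agent.H60.LQ.Two

/-!
# LQ0 in dimension six

THEOREM (LQ6). In `ℝ ^ 6` the inequality of Q1 holds, without loss, for every `q > 41 / 31`
(Wolff 1995: `q > 4 / 3`, the record for `n = 6`). Here `d = 5`; the deficit of the times costs more
than `a + d`, which is compensated by the better level zero `L ≤ 2 (sb - 1) + 2 K`.

Numbers: `2 → 7/4 → 171/101 =: a`; `AKS 5 (7/4) 6.88`, `AKS 5 a 7.05`, `GapG 5 a 7.25 (kp a)`;
`kp a = 12371 / 60652`.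
-/

set_option autoImplicit false

namespace Pool.LQ

open Finset Real
open Pool.Agent.H49.Ent Pool.Agent.H32.Dense Pool.KTH
open Pool.Agent.H24.KTH (dsv lvv lev cap Yf kp)

/-- (L02) The better level zero. Two copies of `(v, τ)` given `(v, Z)` (`dbl p (bv Z v)`), points
`P, P'`: `2 Sb ≥ H(P, P') ≥ H(v, τ, τ') - H(v|P, P')`, `H(v, τ, τ') = L + 2 (lm - K)`, and `v` has
`C M / |τ - τ'|` values per coordinate given `P, P'`: `H(v|P, P') ≤ d (Gf + C)`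
(`(τ - τ') / M · v = X - X' + O(1)`; as in H71/KTH/TWO.lean or `level0G` of H32/Dense/Zero.lean). -/
def L02Stmt : Prop := ∀ d : ℕ, AKSG d 2 2

/-- The exact coefficient of the deficit (smaller than `lp`). -/
noncomputable def lp3 (a Λ : ℝ) : ℝ :=
  (7 * a ^ 2 + 3 * a - 4 + (3 * a - 1) * (Λ - a)) / (a ^ 2 + 3 * a - 2)

/-- (STP4) The step with the exact coefficient; as (STP), with `ARB3.sum` (H60/LQ/ARB3.lean). -/
def STP4Stmt : Prop :=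
  ∀ (d : ℕ) (a Λ : ℝ), 1 ≤ d → 1 ≤ a → a ≤ 2 → a + 4 ≤ Λ → AKS d a Λ →
    GapG d (nx a) (lp3 a Λ) (kp a)

/-- (PUR6) `d = 5`. (LZR): `AKSG 5 2 4`; (LOC) with `ε = 1/1000`: `AKS 5 2 7.007`; (STP4), (GAG):
`AKSG 5 (7/4) 6.879375`; (LOC): `AKS 5 (7/4) 6.88` (`6.75 (1 + ε) ≤ 6.88`); (STP4), (GAG), (LOC):
`AKS 5 (171/101) 7.05` (`lp3 = 7.0479..`); (STP4): `GapG 5 (nx a) (7.2315..) (kp a)`, and
`nx a (Sb - lm) ≤ a (Sb - lm) + (a - nx a) K` (`Sb ≥ lm - K`, SBP): `7.24516.. ≤ 7.25`. All the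
properties are monotone in `Λ` (`Kf ≥ 0`). -/
def PUR6Stmt : Prop := GapG 5 (171 / 101) 7.25 (kp (171 / 101))

/-- (NUM6) The numbers, `m = 5`: `Two` is, with `x = L / 5` and the bounds for `y`, `τ`,
`35.694 x ≤ 11.346 (sb - l) + 49.2006 K + C E` (the constant term vanishes); add `.4259` times
`5 x ≤ 2 (sb - l) + 2 K + E`: `37.82 x ≤ 12.198 (sb - l) + 50.05 K`; `37.82 / 12.198 ≥ 3.1002`; then use
`0 ≤ (sb - l) + K` (a small multiple) to get `3.1 x ≤ (sb - l) + 4.1 K + C E`. -/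
def NUM6Stmt : Prop :=
  ∃ C : ℝ, 0 ≤ C ∧ ∀ L l sb y K τ E : ℝ, 0 ≤ l → 0 ≤ K → 0 ≤ E → 0 ≤ L → L ≤ 5 * l + E →
    y ≤ l - L / 5 + E → τ ≤ 5 * l - L + E → l - K ≤ sb →
    Two (171 / 101) 7.25 5 L l sb y K τ E → L ≤ 2 * (sb - l) + 2 * K + E →
    L ≤ 50 / 31 * (sb - l) + (50 / 31 + 5) * K + C * E

/-- (LVO6) As (LVO3), with (L02) for the restricted family, (LVB3) and (NUM6). -/
def LVO6Stmt : Prop :=
  PlusA 5 (171 / 101) 7.25 (kp (171 / 101)) → AKSG 5 (50 / 31) (50 / 31 + 5)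

/-- (FIN6) The theorem in dimension six: (PUR6), (LPG), (LPA) (`ε = 1/100`:
`1.01 (a + 5 + κ) = 6.966 ≤ 7.25`), (LVO6), (HCB) with `k = 0`, (DCS), then as (FIN):
`1 + (50 / 31) / 5 = 41 / 31`. -/
def FIN6Stmt : Prop :=
  ∀ q : ℝ, 41 / 31 < q → ∃ C : ℝ, Pool.Agent.H53.Kak.Loss 5 q 0 C

end Pool.LQ
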